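import Pool.Agent.Lib.MP_10e784_agX.PMain
import Pool.Agent.Lib.MP_10e784_agBW.WP

/-!
# Block P, without hypothesis
-/

set_option autoImplicit false

namespace BIE

open MWS

private theorem card_sub {α : Type} (Z : Finset α) (P : α → Prop) [DecidablePred P] :
    Nat.card {z : Z // P z.1} = (Z.filter P).card := by
  have e : {z : Z // P z.1} ≃ (Z.filter P : Finset α) :=
    { toFun := fun z => ⟨z.1.1, Finset.mem_filter.2 ⟨z.1.2, z.2⟩⟩
      invFun := fun w => ⟨⟨w.1, (Finset.mem_filter.1 w.2).1⟩, (Finset.mem_filter.1 w.2).2⟩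
      left_inv := fun z => rfl
      right_inv := fun w => rfl }
  rw [Nat.card_congr e, Nat.card_eq_fintype_card, Fintype.card_coe]

theorem factW : FactW := by
  classical
  obtain ⟨C0, c0, h⟩ := HNW.branch_points
  refine ⟨C0, c0, fun p n _ hn hp F y hF hT _ h0 => ?_⟩
  obtain ⟨Z, h1, h2, h3⟩ := h p n hn hp F y hF hT h0
  refine ⟨Z, h1, h2, fun m G hG hG0 => ?_⟩
  rw [card_sub Z fun z => G.evalEval z.1 z.2 = 0]
  exact le_trans (le_of_eq (congrArg _ (by congr))) (h3 m G hG hG0)

theorem factP_true : FactP := factP factW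

end BIE
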