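import Pool.Agent.Lib.MP_10e784_agX.CDefs

/-!
# LEAF C1: the power series `ξ_n`

PROOF.  `xi_cc`: strong induction on `n`: all exponents of `X` are positive for `n ≤ m` (`l = 2 m + 1`, `m ≥ 3`: `l - 4 ≥ 3`, `l - 2 ≥ 5`, and for `n + 3 ≤ m`: `l - 2 (n + 2) - 2 ≥ 1`), so the constant coefficient of the numerator and of the denominator is `1` (`map_mul`, `map_add`, `map_pow`, `constantCoeff_X`, `PowerSeries.constantCoeff_inv`).
`xi_lip`: strong induction on `n`: `f ≡ g` modulo `X ^ (k + 1)` is compatible with sums, products, and inverses of power series with constant coefficient `1` (`a⁻¹ - b⁻¹ = (b - a) a⁻¹ b⁻¹`, `PowerSeries.mul_inv_cancel`), and `w X ^ e ≡ w' X ^ e` modulo `X ^ (k + 1)` for `e ≥ 1`.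
`eta_cc`: as in `xi_cc`.  `eta_lip`: `D = (..)⁻¹`, `D ≡ 1` modulo `X`, `D - D' ≡ 0` modulo `X ^ (k + 1)` by `xi_lip`; `η - η' = X (ξ² - ξ'²) D + (w - w') ((1 + 4 X ^ m ξ + 4 X) D) + (terms with ξ - ξ' or D - D')` and `(1 + 4 X ^ m ξ + 4 X) D ≡ 1` modulo `X`.
-/

set_option autoImplicit false

namespace BIE

open PowerSeries

variable {K : Type} [Field K]

private theorem C1_mul {a b c d : PowerSeries K} {k : ℕ} (h1 : (X : PowerSeries K) ^ k ∣ a - b)
    (h2 : (X : PowerSeries K) ^ k ∣ c - d) : (X : PowerSeries K) ^ k ∣ a * c - b * d := by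
  have e : a * c - b * d = a * (c - d) + (a - b) * d := by ring
  rw [e]
  exact dvd_add (Dvd.dvd.mul_left h2 a) (Dvd.dvd.mul_right h1 d)

private theorem C1_add {a b c d : PowerSeries K} {k : ℕ} (h1 : (X : PowerSeries K) ^ k ∣ a - b)
    (h2 : (X : PowerSeries K) ^ k ∣ c - d) : (X : PowerSeries K) ^ k ∣ (a + c) - (b + d) := by
  have e : (a + c) - (b + d) = (a - b) + (c - d) := by ring
  rw [e]
  exact dvd_add h1 h2

private theorem C1_sub {a b c d : PowerSeries K} {k : ℕ} (h1 : (X : PowerSeries K) ^ k ∣ a - b)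
    (h2 : (X : PowerSeries K) ^ k ∣ c - d) : (X : PowerSeries K) ^ k ∣ (a - c) - (b - d) := by
  have e : (a - c) - (b - d) = (a - b) - (c - d) := by ring
  rw [e]
  exact dvd_sub h1 h2

private theorem C1_refl (a : PowerSeries K) (k : ℕ) : (X : PowerSeries K) ^ k ∣ a - a := by
  rw [sub_self]
  exact dvd_zero _

private theorem C1_sq {a b : PowerSeries K} {k : ℕ} (h1 : (X : PowerSeries K) ^ k ∣ a - b) :
    (X : PowerSeries K) ^ k ∣ a ^ 2 - b ^ 2 := by
  rw [sq, sq]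
  exact C1_mul h1 h1

/-- `w X ^ e` modulo `X ^ (k + 1)`. -/
private theorem C1_w {w w' : PowerSeries K} {k e : ℕ} (h : (X : PowerSeries K) ^ k ∣ w - w') (he : 1 ≤ e) :
    (X : PowerSeries K) ^ (k + 1) ∣ w * X ^ e - w' * X ^ e := by
  have e1 : w * X ^ e - w' * X ^ e = (w - w') * X ^ e := by ring
  rw [e1]
  calc (X : PowerSeries K) ^ (k + 1) ∣ X ^ (k + e) := pow_dvd_pow _ (by omega)
    _ = X ^ k * X ^ e := pow_add _ _ _
    _ ∣ (w - w') * X ^ e := mul_dvd_mul_right h _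

private theorem C1_cX {e : ℕ} (he : 1 ≤ e) : constantCoeff ((X : PowerSeries K) ^ e) = 0 := by
  rw [map_pow, constantCoeff_X, zero_pow (by omega)]

private theorem C1_ne {a : PowerSeries K} (ha : constantCoeff a = 1) : constantCoeff a ≠ 0 := by
  rw [ha]
  exact one_ne_zero

private theorem C1_two (l : ℕ) (w : PowerSeries K) : xi K l w 2 =
    (1 + w * X ^ (l - 4) * (1 + 8 * X)) * (1 + 4 * X - 4 * w * X ^ (l - 2))⁻¹ := by
  rw [xi]

private theorem C1_step (l : ℕ) (w : PowerSeries K) (n : ℕ) : xi K l w (n + 3) =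
    (xi K l w (n + 2) ^ 2 + w * X ^ (l - 2 * (n + 2) - 2) * (1 + 4 * X ^ (n + 2) * xi K l w (n + 2) + 4 * X)) *
      ((1 - X ^ (n + 1) * xi K l w (n + 2)) ^ 2 * xi K l w (n + 1))⁻¹ := by
  rw [xi]

private theorem C1_den2 {m : ℕ} (hm : 3 ≤ m) (w : PowerSeries K) :
    constantCoeff (1 + 4 * X - 4 * w * X ^ (2 * m + 1 - 2)) = 1 := by
  rw [map_sub, map_add, map_mul, map_mul, C1_cX (by omega), constantCoeff_X, map_one]
  ring

private theorem C1_den {e : ℕ} (he : 1 ≤ e) {a b : PowerSeries K} (hb : constantCoeff b = 1) :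
    constantCoeff ((1 - X ^ e * a) ^ 2 * b) = 1 := by
  rw [map_mul, map_pow, map_sub, map_mul, C1_cX he, map_one, hb]
  ring

private theorem C1_u {e : ℕ} (he : 1 ≤ e) (a : PowerSeries K) :
    constantCoeff (1 + 4 * X ^ e * a + 4 * X) = 1 := by
  rw [map_add, map_add, map_mul, map_mul, map_mul, C1_cX he, constantCoeff_X, map_one]
  ring

/-- differences of inverses -/
theorem inv_lip {a b : PowerSeries K} (ha : constantCoeff a = 1) (hb : constantCoeff b = 1) {k : ℕ}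
    (h : (X : PowerSeries K) ^ k ∣ a - b) : (X : PowerSeries K) ^ k ∣ a⁻¹ - b⁻¹ := by
  have h1 := PowerSeries.mul_inv_cancel a (C1_ne ha)
  have h2 := PowerSeries.mul_inv_cancel b (C1_ne hb)
  have e : a⁻¹ - b⁻¹ = (a - b) * (-(a⁻¹ * b⁻¹)) := by
    calc a⁻¹ - b⁻¹ = a⁻¹ * (b * b⁻¹) - (a * a⁻¹) * b⁻¹ := by rw [h1, h2, mul_one, one_mul]
      _ = (a - b) * (-(a⁻¹ * b⁻¹)) := by ring
  rw [e]
  exact Dvd.dvd.mul_right h _

theorem xi_cc {m : ℕ} (hm : 3 ≤ m) (w : PowerSeries K) (n : ℕ) (hn : n ≤ m) :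
    constantCoeff (xi K (2 * m + 1) w n) = 1 := by
  induction n using Nat.strong_induction_on with
  | _ n ih =>
    match n, ih, hn with
    | 0, _, _ => rw [xi, map_one]
    | 1, _, _ => rw [xi, map_one]
    | 2, _, _ =>
      rw [C1_two, map_mul, PowerSeries.constantCoeff_inv, C1_den2 hm, map_add, map_mul, map_mul,
        C1_cX (by omega), map_one]
      simp
    | n + 3, ih, hn =>
      have h1 := ih (n + 2) (by omega) (by omega)
      have h2 := ih (n + 1) (by omega) (by omega)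
      rw [C1_step, map_mul, PowerSeries.constantCoeff_inv, C1_den (by omega) h2, map_add, map_pow, h1,
        map_mul, map_mul, C1_cX (by omega)]
      simp

theorem xi_lip {m : ℕ} (hm : 3 ≤ m) (w w' : PowerSeries K) (k : ℕ) (h : (X : PowerSeries K) ^ k ∣ w - w') (n : ℕ)
    (hn : n ≤ m) : (X : PowerSeries K) ^ (k + 1) ∣ xi K (2 * m + 1) w n - xi K (2 * m + 1) w' n := by
  induction n using Nat.strong_induction_on with
  | _ n ih =>
    match n, ih, hn with
    | 0, _, _ =>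
      rw [xi, xi]
      exact C1_refl _ _
    | 1, _, _ =>
      rw [xi, xi]
      exact C1_refl _ _
    | 2, _, _ =>
      rw [C1_two, C1_two]
      refine C1_mul (C1_add (C1_refl _ _) (C1_mul (C1_w h (by omega)) (C1_refl _ _)))
        (inv_lip (C1_den2 hm w) (C1_den2 hm w') (C1_sub (C1_refl _ _) ?_))
      rw [mul_assoc, mul_assoc]
      exact C1_mul (C1_refl _ _) (C1_w h (by omega))
    | n + 3, ih, hn =>
      have h1 := ih (n + 2) (by omega) (by omega)
      have h2 := ih (n + 1) (by omega) (by omega)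
      rw [C1_step, C1_step]
      refine C1_mul (C1_add (C1_sq h1) (C1_mul (C1_w h (by omega)) (C1_add (C1_add (C1_refl _ _)
        (C1_mul (C1_refl _ _) h1)) (C1_refl _ _)))) (inv_lip (C1_den (by omega) (xi_cc hm w _ (by omega)))
        (C1_den (by omega) (xi_cc hm w' _ (by omega)))
        (C1_mul (C1_sq (C1_sub (C1_refl _ _) (C1_mul (C1_refl _ _) h1))) h2))

theorem eta_cc {m : ℕ} (hm : 3 ≤ m) (w : PowerSeries K) (hw : constantCoeff w = 1) :
    constantCoeff (eta K m w) = 1 := by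
  have h2 := xi_cc hm w (m - 1) (by omega)
  unfold eta
  rw [map_mul, PowerSeries.constantCoeff_inv, C1_den (by omega) h2, map_add, map_mul, map_mul,
    C1_u (by omega), constantCoeff_X, hw]
  simp

theorem eta_lip {m : ℕ} (hm : 3 ≤ m) (w w' : PowerSeries K) (k : ℕ) (h : (X : PowerSeries K) ^ k ∣ w - w') :
    (X : PowerSeries K) ^ (k + 1) ∣ (eta K m w - w) - (eta K m w' - w') := by
  obtain ⟨x, hx⟩ : ∃ x, x = xi K (2 * m + 1) w m := ⟨_, rfl⟩
  obtain ⟨x', hx'⟩ : ∃ x, x = xi K (2 * m + 1) w' m := ⟨_, rfl⟩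
  obtain ⟨D, hD⟩ : ∃ D, D = ((1 - X ^ (m - 1) * xi K (2 * m + 1) w m) ^ 2 * xi K (2 * m + 1) w (m - 1))⁻¹ :=
    ⟨_, rfl⟩
  obtain ⟨D', hD'⟩ : ∃ D, D = ((1 - X ^ (m - 1) * xi K (2 * m + 1) w' m) ^ 2 * xi K (2 * m + 1) w' (m - 1))⁻¹ :=
    ⟨_, rfl⟩
  have hxx : (X : PowerSeries K) ^ (k + 1) ∣ x - x' := by
    rw [hx, hx']
    exact xi_lip hm w w' k h m le_rfl
  have hDD : (X : PowerSeries K) ^ (k + 1) ∣ D - D' := by
    rw [hD, hD']
    exact inv_lip (C1_den (by omega) (xi_cc hm w _ (by omega))) (C1_den (by omega) (xi_cc hm w' _ (by omega)))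
      (C1_mul (C1_sq (C1_sub (C1_refl _ _) (C1_mul (C1_refl _ _) (xi_lip hm w w' k h m le_rfl))))
        (xi_lip hm w w' k h (m - 1) (by omega)))
  have hDc : constantCoeff D = 1 := by
    rw [hD, PowerSeries.constantCoeff_inv, C1_den (by omega) (xi_cc hm w _ (by omega)), inv_one]
  have he : eta K m w = (X * x ^ 2 + w * (1 + 4 * X ^ m * x + 4 * X)) * D := by
    rw [hx, hD]
    rfl
  have he' : eta K m w' = (X * x' ^ 2 + w' * (1 + 4 * X ^ m * x' + 4 * X)) * D' := by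
    rw [hx', hD']
    rfl
  have hu : (X : PowerSeries K) ∣ (1 + 4 * X ^ m * x + 4 * X) * D - 1 := by
    rw [PowerSeries.X_dvd_iff, map_sub, map_mul, C1_u (by omega), hDc, map_one]
    ring
  have e : (eta K m w - w) - (eta K m w' - w') =
      ((X * x ^ 2) * D - (X * x' ^ 2) * D') +
      w' * ((1 + 4 * X ^ m * x + 4 * X) * D - (1 + 4 * X ^ m * x' + 4 * X) * D') +
      (w - w') * ((1 + 4 * X ^ m * x + 4 * X) * D - 1) := by
    rw [he, he']
    ring
  rw [e]
  refine dvd_add (dvd_add ?_ ?_) ?_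
  · exact C1_mul (C1_mul (C1_refl _ _) (C1_sq hxx)) hDD
  · exact Dvd.dvd.mul_left (C1_mul (C1_add (C1_add (C1_refl _ _) (C1_mul (C1_refl _ _) hxx)) (C1_refl _ _)) hDD) _
  · rw [pow_succ]
    exact mul_dvd_mul h hu

end BIE
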