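import Mathlib

/-!
# LEAF C2: fixed points of contractions of power series

PROOF of `fixed`.  `w_0 = 1`, `w_(j + 1) = T w_j`: `constantCoeff w_j = 1`, `X ^ (j + 1) ∣ w_(j + 1) - w_j` (`j = 0`: `X ^ 1` divides as both constant coefficients are `1`).  So the coefficient number `i` of `w_j` is the same for all `j ≥ i`; `w = PowerSeries.mk fun i => coeff i (w_i)`; `X ^ (j + 1) ∣ w - w_j` (`PowerSeries.X_pow_dvd_iff`), so `X ^ (j + 1) ∣ T w - T w_j = T w - w_(j + 1)`, so `X ^ (j + 1) ∣ T w - w` for all `j`, so `T w = w`.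
-/

set_option autoImplicit false

namespace BIE

open PowerSeries

theorem fixed {K : Type} [Field K] (c : K) (T : PowerSeries K → PowerSeries K)
    (h1 : ∀ w, constantCoeff w = c → constantCoeff (T w) = c)
    (h2 : ∀ (k : ℕ) (w w' : PowerSeries K), constantCoeff w = c → constantCoeff w' = c →
      (X : PowerSeries K) ^ k ∣ w - w' → (X : PowerSeries K) ^ (k + 1) ∣ T w - T w') :
    ∃ w, constantCoeff w = c ∧ T w = w := by
  let u : ℕ → PowerSeries K := fun j => Nat.rec (C c) (fun _ w => T w) j
  have u0 : u 0 = C c := rfl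
  have us : ∀ j, u (j + 1) = T (u j) := fun j => rfl
  have hc : ∀ j, constantCoeff (u j) = c := by
    intro j
    induction j with
    | zero => rw [u0, constantCoeff_C]
    | succ j ih =>
      rw [us]
      exact h1 _ ih
  have hstep : ∀ j, (X : PowerSeries K) ^ (j + 1) ∣ u (j + 1) - u j := by
    intro j
    induction j with
    | zero =>
      rw [zero_add, pow_one, X_dvd_iff, map_sub, hc, hc, sub_self]
    | succ j ih =>
      rw [us (j + 1), us j]
      exact h2 (j + 1) _ _ (by rw [← us]; exact hc (j + 1)) (hc j) (by rw [← us]; exact ih)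
  have hst : ∀ i j, i ≤ j → coeff i (u j) = coeff i (u i) := by
    intro i j hij
    induction j, hij using Nat.le_induction with
    | base => rfl
    | succ j hij ih =>
      have h3 := (X_pow_dvd_iff.1 (hstep j)) i (by omega)
      rw [map_sub, sub_eq_zero] at h3
      rw [h3, ih]
  let w : PowerSeries K := PowerSeries.mk fun i => coeff i (u i)
  have hw : ∀ i, coeff i w = coeff i (u i) := fun i => coeff_mk _ _
  have hwc : constantCoeff w = c := by
    rw [← coeff_zero_eq_constantCoeff_apply, hw, coeff_zero_eq_constantCoeff_apply, hc]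
  have hwu : ∀ j, (X : PowerSeries K) ^ (j + 1) ∣ w - u j := by
    intro j
    rw [X_pow_dvd_iff]
    intro i hi
    rw [map_sub, hw, hst i j (by omega), sub_self]
  have hall : ∀ j, (X : PowerSeries K) ^ (j + 2) ∣ T w - w := by
    intro j
    have h3 := h2 (j + 1) w (u j) hwc (hc j) (hwu j)
    rw [← us] at h3
    have h4 := hwu (j + 1)
    have h5 := dvd_sub h3 h4
    have e : T w - u (j + 1) - (w - u (j + 1)) = T w - w := by ring
    rw [e] at h5
    exact h5
  refine ⟨w, hwc, ?_⟩
  ext i
  have h3 := (X_pow_dvd_iff.1 (hall i)) i (by omega)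
  rw [map_sub, sub_eq_zero] at h3
  exact h3

end BIE
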