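import Pool.Agent.Lib.MP_10e784_agX.PA

/-!
# LEAF PA2: sum and difference of two points

PROOF.  (See `lin_of_sum`, `sum_of_lin` in `MP_10e784_agW/RA.lean` for the handling of Mathlib's formulas.)  `Point.add_some` with the slope `l = (y₁ - y₂) / (x₁ - x₂)`: `x₃ = l² + l - x₁ - x₂`; for the difference `- B = (x₂, - y₂ - x₂)` (`EQ_neg`) and the slope `l' = (y₁ + y₂ + x₂) / (x₁ - x₂)`: `x₄ = l'² + l' - x₁ - x₂`.  The identity `x₃ x₄ (x₁ - x₂)² = x₁² x₂² + 4 q (x₁ + x₂) + q`: multiply by `(x₁ - x₂)²` (not zero); both sides are polynomials in `x₁, y₁, x₂, y₂, q` equal modulo the two equations `y_i² + x_i y_i = x_i³ - q` (`linear_combination` with polynomial coefficients; or eliminate: `q = x₁³ - y₁² - x₁ y₁` and use one equation `x₁³ - y₁² - x₁ y₁ = x₂³ - y₂² - x₂ y₂`: then LHS - RHS is a multiple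 of the difference of the two sides).
-/

set_option autoImplicit false

namespace BIE

variable {K : Type*} [Field K] [DecidableEq K]

theorem add_sub (q x₁ y₁ x₂ y₂ : K) (h₁ : (EQ K q).toAffine.Nonsingular x₁ y₁)
    (h₂ : (EQ K q).toAffine.Nonsingular x₂ y₂) (hx : x₁ ≠ x₂) :
    ∃ (x₃ y₃ : K) (h₃ : (EQ K q).toAffine.Nonsingular x₃ y₃) (x₄ y₄ : K) (h₄ : (EQ K q).toAffine.Nonsingular x₄ y₄),
      (.some x₁ y₁ h₁ : PQ q) + .some x₂ y₂ h₂ = .some x₃ y₃ h₃ ∧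
      (.some x₁ y₁ h₁ : PQ q) - .some x₂ y₂ h₂ = .some x₄ y₄ h₄ ∧
      x₃ * x₄ * (x₁ - x₂) ^ 2 = x₁ ^ 2 * x₂ ^ 2 + 4 * q * (x₁ + x₂) + q := by
  obtain ⟨h₂', e₂'⟩ := EQ_neg q x₂ y₂ h₂
  have A := WeierstrassCurve.Affine.Point.add_of_X_ne (W := (EQ K q).toAffine) (h₁ := h₁) (h₂ := h₂) hx
  have B := WeierstrassCurve.Affine.Point.add_of_X_ne (W := (EQ K q).toAffine) (h₁ := h₁) (h₂ := h₂') hx
  have C : (.some x₁ y₁ h₁ : PQ q) - .some x₂ y₂ h₂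
      = .some x₁ y₁ h₁ + .some x₂ (-y₂ - x₂) h₂' := by
    rw [sub_eq_add_neg, e₂']
  refine ⟨_, _, _, _, _, _, A, C.trans B, ?_⟩
  have E₁ := (EQ_eqn q x₁ y₁).1 h₁.1
  have E₂ := (EQ_eqn q x₂ y₂).1 h₂.1
  rw [WeierstrassCurve.Affine.slope_of_X_ne hx, WeierstrassCurve.Affine.slope_of_X_ne hx]
  have hd : x₁ - x₂ ≠ 0 := sub_ne_zero.2 hx
  obtain ⟨l, hl⟩ : ∃ l, l = (y₁ - y₂) / (x₁ - x₂) := ⟨_, rfl⟩
  obtain ⟨l', hl'⟩ : ∃ l', l' = (y₁ - (-y₂ - x₂)) / (x₁ - x₂) := ⟨_, rfl⟩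
  rw [← hl, ← hl']
  have hu : l * (x₁ - x₂) = y₁ - y₂ := by
    rw [hl]
    exact div_mul_cancel₀ _ hd
  have hu' : l' * (x₁ - x₂) = y₁ + y₂ + x₂ := by
    rw [hl', div_mul_cancel₀ _ hd]
    ring
  show (l ^ 2 + (1 : K) * l - 0 - x₁ - x₂) * (l' ^ 2 + (1 : K) * l' - 0 - x₁ - x₂) * (x₁ - x₂) ^ 2
    = x₁ ^ 2 * x₂ ^ 2 + 4 * q * (x₁ + x₂) + q
  apply mul_right_cancel₀ (pow_ne_zero 2 hd)
  have k1 : (l ^ 2 + (1 : K) * l - 0 - x₁ - x₂) * (x₁ - x₂) ^ 2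
      = (y₁ - y₂) ^ 2 + (y₁ - y₂) * (x₁ - x₂) - (x₁ + x₂) * (x₁ - x₂) ^ 2 := by
    rw [← hu]
    ring
  have k2 : (l' ^ 2 + (1 : K) * l' - 0 - x₁ - x₂) * (x₁ - x₂) ^ 2
      = (y₁ + y₂ + x₂) ^ 2 + (y₁ + y₂ + x₂) * (x₁ - x₂) - (x₁ + x₂) * (x₁ - x₂) ^ 2 := by
    rw [← hu']
    ring
  have k3 : (l ^ 2 + (1 : K) * l - 0 - x₁ - x₂) * (l' ^ 2 + (1 : K) * l' - 0 - x₁ - x₂)
      * (x₁ - x₂) ^ 2 * (x₁ - x₂) ^ 2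
      = ((l ^ 2 + (1 : K) * l - 0 - x₁ - x₂) * (x₁ - x₂) ^ 2)
        * ((l' ^ 2 + (1 : K) * l' - 0 - x₁ - x₂) * (x₁ - x₂) ^ 2) := by
    ring
  rw [k3, k1, k2]
  linear_combination
    (-x₁^3 + 2*x₁^2*x₂ + 2*x₁*x₂^2 + x₁*x₂ + x₁*y₁ - 2*x₂^3 - x₂^2 - 2*x₂*y₂ + y₁^2 - 2*y₂^2 - q) * E₁
    + (-4*x₁^3 + 2*x₁^2*x₂ - x₁^2 + 2*x₁*x₂^2 + x₁*x₂ - x₂^3 + x₂*y₂ + y₂^2 + q) * E₂

end BIE
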