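import Pool.Agent.Lib.MP_10e784_agX.PA

/-!
# LEAF PA3: doubling

PROOF.  `(2 y + x)² = 4 x³ + x² - 4 q` on the curve; `2 y + x = 0` iff `P = - P` (`EQ_neg`), then `2 P = 0`.  Otherwise `two_nsmul`, `Point.add_some` / `add_self_of_Y_ne` with the slope of the tangent `l = (3 x² - y) / (2 y + x)`: `x' = l² + l - 2 x` and `x' (2 y + x)² = (3 x² - y)² + (3 x² - y) (2 y + x) - 2 x (2 y + x)² = x⁴ + 8 q x + q` modulo the equation of the curve.
-/

set_option autoImplicit false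

namespace BIE

variable {K : Type*} [Field K] [DecidableEq K]

private theorem PA3_sq (q x y : K) (h : (EQ K q).toAffine.Nonsingular x y) :
    (2 * y + x) ^ 2 = 4 * x ^ 3 + x ^ 2 - 4 * q := by
  have E := (EQ_eqn q x y).1 h.1
  linear_combination 4 * E

omit [DecidableEq K] in
private theorem PA3_negY (q x y : K) : (EQ K q).toAffine.negY x y = -y - x := by
  show -y - (1 : K) * x - 0 = -y - x
  ring

theorem dbl_pt (q x y : K) (h : (EQ K q).toAffine.Nonsingular x y) (hd : 4 * x ^ 3 + x ^ 2 - 4 * q ≠ 0) :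
    ∃ (x' y' : K) (h' : (EQ K q).toAffine.Nonsingular x' y'), (2 : ℕ) • (.some x y h : PQ q) = .some x' y' h' ∧
      x' * (4 * x ^ 3 + x ^ 2 - 4 * q) = x ^ 4 + 8 * q * x + q := by
  have E := (EQ_eqn q x y).1 h.1
  have hs := PA3_sq q x y h
  have hd' : 2 * y + x ≠ 0 := by
    intro h0
    rw [h0] at hs
    exact hd (by rw [← hs]; ring)
  have hy : y ≠ (EQ K q).toAffine.negY x y := by
    intro h0
    rw [PA3_negY] at h0
    exact hd' (by linear_combination h0)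
  have A := WeierstrassCurve.Affine.Point.add_self_of_Y_ne (W := (EQ K q).toAffine) (h₁ := h) hy
  refine ⟨_, _, _, (two_nsmul _).trans A, ?_⟩
  rw [WeierstrassCurve.Affine.slope_of_Y_ne rfl hy]
  obtain ⟨l, hl⟩ : ∃ l, l = (3 * x ^ 2 + 2 * (EQ K q).toAffine.a₂ * x + (EQ K q).toAffine.a₄ -
    (EQ K q).toAffine.a₁ * y) / (y - (EQ K q).toAffine.negY x y) := ⟨_, rfl⟩
  rw [← hl]
  have hu : l * (2 * y + x) = 3 * x ^ 2 - y := by
    have h1 : y - (EQ K q).toAffine.negY x y = 2 * y + x := by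
      rw [PA3_negY]
      ring
    rw [hl, h1, div_mul_cancel₀ _ hd']
    show 3 * x ^ 2 + 2 * (0 : K) * x + 0 - (1 : K) * y = 3 * x ^ 2 - y
    ring
  show (l ^ 2 + (1 : K) * l - 0 - x - x) * (4 * x ^ 3 + x ^ 2 - 4 * q) = x ^ 4 + 8 * q * x + q
  rw [← hs]
  have k1 : (l ^ 2 + (1 : K) * l - 0 - x - x) * (2 * y + x) ^ 2 =
      (3 * x ^ 2 - y) ^ 2 + (3 * x ^ 2 - y) * (2 * y + x) - 2 * x * (2 * y + x) ^ 2 := by
    rw [← hu]
    ring
  rw [k1]
  linear_combination -(8 * x + 1) * E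

theorem dbl_zero (q x y : K) (h : (EQ K q).toAffine.Nonsingular x y) (hd : 4 * x ^ 3 + x ^ 2 - 4 * q = 0) :
    (2 : ℕ) • (.some x y h : PQ q) = 0 := by
  have hs := PA3_sq q x y h
  rw [hd] at hs
  have h0 : 2 * y + x = 0 := pow_eq_zero_iff (two_ne_zero) |>.1 hs
  rw [two_nsmul]
  refine WeierstrassCurve.Affine.Point.add_self_of_Y_eq ?_
  rw [PA3_negY]
  linear_combination h0

end BIE
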