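import Pool.Agent.Lib.MP_10e784_agX.C3
import Pool.Agent.Lib.MP_10e784_agX.PA2
import Pool.Agent.Lib.MP_10e784_agX.PA3

/-!
# LEAF C4: the multiples of the point over the field of fractions

`L` is the field of fractions of the ring of power series, `φ = algebraMap`, `s = φ X`, `q = φ (w X ^ (2 m + 1))`, `P = (s, φ y)`.
PROOF of `mults`.  First: `x_1 = s`, `x_n = φ (X ^ n ξ_n)`.  Strong induction on `n`, `1 ≤ n ≤ m`: `n P` is affine with `x`-coordinate `x_n`.  `n = 2`: `dbl_pt`: `4 s³ + s² - 4 q = φ (X² (1 + 4 X - 4 w X ^ (l - 2))) ≠ 0` (constant coefficient `1`), `s⁴ + 8 q s + q = φ (X⁴ (1 + w X ^ (l - 4) (1 + 8 X)))`, so `x_2 = φ (X² ξ_2)` (`PowerSeries.mul_inv_cancel`).  `n + 1 ≥ 3`: `n P` has `x`-coordinate `x_n ≠ s` (`n ≥ 2`: `X - X ^ n ξ_n = X (1 - X ^ (n - 1) ξ_n)` is not `0`), so `add_sub` for `n P` and `P`: `(n + 1) P`, `(n - 1) P = n P - P` are affine and `x_(n + 1)' x_(n - 1) (x_n - s)² = x_n² s² + 4 q (x_n +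 s) + q`; with `x_n = s ^ n ξ_n`, `x_(n - 1) = s ^ (n - 1) ξ_(n - 1)` (induction; two points with the same value have the same coordinates), the right side is `s ^ (2 n + 2) ξ_n² + w s ^ l (1 + 4 s ^ n ξ_n + 4 s)`; for `n + 1 ≤ m` this is `s ^ (2 n + 2) (ξ_n² + w s ^ (l - 2 n - 2) (..))` and `x' = s ^ (n + 1) ξ_(n + 1)` by the definition of `xi`.
`last`: the same step for `n = m`: the right side is `s ^ (2 m + 1) (s ξ_m² + w (..))`, so `x' = s ^ m η`.
-/

set_option autoImplicit false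

namespace BIE

open PowerSeries

variable {K : Type} [Field K]

private theorem C4_cast {L : Type} [Field L] {q x x' y : L} (e : x = x')
    (h : (EQ L q).toAffine.Nonsingular x y) :
    ∃ (y' : L) (h' : (EQ L q).toAffine.Nonsingular x' y'), (.some x y h : PQ q) = .some x' y' h' := by
  subst e
  exact ⟨y, h, rfl⟩

private theorem C4_step {L : Type} [Field L] [DecidableEq L] (φ : PowerSeries K →+* L)
    (hφ : Function.Injective φ) (w y : PowerSeries K) (l : ℕ)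
    (h : (EQ L (φ (w * X ^ l))).toAffine.Nonsingular (φ X) (φ y)) (n : ℕ) (A B z : PowerSeries K)
    (hB : constantCoeff B = 1)
    {y₁ : L} (h₁ : (EQ L (φ (w * X ^ l))).toAffine.Nonsingular (φ (X ^ (n + 2) * A)) y₁)
    {y₂ : L} (h₂ : (EQ L (φ (w * X ^ l))).toAffine.Nonsingular (φ (X ^ (n + 1) * B)) y₂)
    (e₁ : (n + 2) • (.some _ _ h : PQ (φ (w * X ^ l))) = .some _ _ h₁)
    (e₂ : (n + 1) • (.some _ _ h : PQ (φ (w * X ^ l))) = .some _ _ h₂)
    (hz : z * (X ^ (n + 1) * B) * (X ^ (n + 2) * A - X) ^ 2 =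
      (X ^ (n + 2) * A) ^ 2 * X ^ 2 + 4 * (w * X ^ l) * (X ^ (n + 2) * A + X) + w * X ^ l) :
    ∃ (y' : L) (h' : (EQ L (φ (w * X ^ l))).toAffine.Nonsingular (φ z) y'),
      (n + 3) • (.some _ _ h : PQ (φ (w * X ^ l))) = .some _ _ h' := by
  have hne : X ^ (n + 2) * A - X ≠ (0 : PowerSeries K) := by
    intro h0
    have h1 : (X : PowerSeries K) * (X ^ (n + 1) * A - 1) = 0 := by
      rw [← h0]
      ring
    rcases mul_eq_zero.1 h1 with h2 | h2
    · exact PowerSeries.X_ne_zero h2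
    · have h3 := congrArg (constantCoeff (R := K)) h2
      simp [pow_succ] at h3
  have hBne : (X : PowerSeries K) ^ (n + 1) * B ≠ 0 := by
    refine mul_ne_zero (pow_ne_zero _ PowerSeries.X_ne_zero) ?_
    intro h0
    rw [h0, map_zero] at hB
    exact zero_ne_one hB
  have hx : φ (X ^ (n + 2) * A) ≠ φ X := fun h0 => hne (sub_eq_zero.2 (hφ h0))
  obtain ⟨x₃, y₃, h₃, x₄, y₄, h₄, ea, es, eq⟩ := add_sub (φ (w * X ^ l)) _ _ _ _ h₁ h hx
  rw [← e₁] at ea es
  have e3 : (n + 3) • (.some _ _ h : PQ (φ (w * X ^ l))) = .some _ _ h₃ := by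
    rw [← ea, ← succ_nsmul]
  have e4 : (.some _ _ h₄ : PQ (φ (w * X ^ l))) = .some _ _ h₂ := by
    rw [← es, ← e₂, succ_nsmul _ (n + 1), add_sub_cancel_right]
  injection e4 with e4x e4y
  have hφz := congrArg φ hz
  simp only [map_mul, map_add, map_sub, map_pow, map_ofNat] at hφz
  have h5 : φ (X ^ (n + 1) * B) * (φ (X ^ (n + 2) * A) - φ X) ^ 2 ≠ 0 := by
    refine mul_ne_zero ?_ (pow_ne_zero _ (sub_ne_zero.2 hx))
    intro h0
    exact hBne (hφ (by rw [h0, map_zero]))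
  have hx3 : x₃ = φ z := by
    apply mul_right_cancel₀ h5
    rw [e4x] at eq
    simp only [map_mul, map_pow] at eq ⊢
    linear_combination eq - hφz
  rw [e3]
  exact C4_cast hx3 h₃

private theorem C4_xi_cc {m : ℕ} (hm : 3 ≤ m) (w : PowerSeries K) (n : ℕ) (hn : n ≤ m) :
    constantCoeff (xi K (2 * m + 1) w n) = 1 := xi_cc hm w n hn

open Classical in
theorem mults (h2 : (2 : K) ≠ 0) {m : ℕ} (hm : 3 ≤ m) (w y : PowerSeries K)
    (h : (EQ (FractionRing (PowerSeries K)) (algebraMap _ _ (w * X ^ (2 * m + 1)))).toAffine.Nonsingular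
      (algebraMap _ _ (X : PowerSeries K)) (algebraMap _ _ y)) (n : ℕ) (h1 : 1 ≤ n) (hn : n ≤ m) :
    ∃ (y' : FractionRing (PowerSeries K))
      (h' : (EQ (FractionRing (PowerSeries K)) (algebraMap _ _ (w * X ^ (2 * m + 1)))).toAffine.Nonsingular
        (algebraMap _ _ (X ^ n * xi K (2 * m + 1) w n)) y'),
      n • (.some _ _ h : PQ (algebraMap (PowerSeries K) (FractionRing (PowerSeries K)) (w * X ^ (2 * m + 1)))) =
        .some _ _ h' := by
  have hφ : Function.Injective (algebraMap (PowerSeries K) (FractionRing (PowerSeries K))) :=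
    IsFractionRing.injective _ _
  induction n using Nat.strong_induction_on with
  | _ n ih =>
  match n, h1, hn, ih with
  | 1, h1, hn, ih =>
    rw [one_nsmul]
    refine C4_cast ?_ h
    simp [xi]
  | 2, h1, hn, ih =>
    obtain ⟨k, rfl⟩ : ∃ k, m = k + 3 := ⟨m - 3, by omega⟩
    have hl : 2 * (k + 3) + 1 = 2 * k + 7 := by ring
    have hD : constantCoeff (1 + 4 * X - 4 * w * X ^ (2 * k + 5) : PowerSeries K) = 1 := by
      simp [pow_succ]
    have hD0 : constantCoeff (1 + 4 * X - 4 * w * X ^ (2 * k + 5) : PowerSeries K) ≠ 0 := by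
      rw [hD]
      exact one_ne_zero
    have hD1 : (1 + 4 * X - 4 * w * X ^ (2 * k + 5) : PowerSeries K) ≠ 0 := by
      intro h0
      rw [h0, map_zero] at hD
      exact zero_ne_one hD
    have hid : 4 * X ^ 3 + X ^ 2 - 4 * (w * X ^ (2 * (k + 3) + 1)) =
        X ^ 2 * (1 + 4 * X - 4 * w * X ^ (2 * k + 5) : PowerSeries K) := by
      ring
    have hne : (4 * X ^ 3 + X ^ 2 - 4 * (w * X ^ (2 * (k + 3) + 1)) : PowerSeries K) ≠ 0 := by
      rw [hid]
      exact mul_ne_zero (pow_ne_zero _ PowerSeries.X_ne_zero) hD1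
    have hne' : 4 * (algebraMap (PowerSeries K) (FractionRing (PowerSeries K)) X) ^ 3 +
        (algebraMap (PowerSeries K) (FractionRing (PowerSeries K)) X) ^ 2 -
        4 * (algebraMap (PowerSeries K) (FractionRing (PowerSeries K)) (w * X ^ (2 * (k + 3) + 1))) ≠ 0 := by
      intro h0
      apply hne
      apply hφ
      rw [map_zero, ← h0]
      simp only [map_mul, map_add, map_sub, map_pow, map_ofNat]
    obtain ⟨x', y', h', e1, e2⟩ := dbl_pt _ _ _ h hne'
    rw [e1]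
    refine C4_cast ?_ h'
    apply mul_right_cancel₀ hne'
    rw [e2]
    have hz : (X ^ 2 * xi K (2 * (k + 3) + 1) w 2) * (4 * X ^ 3 + X ^ 2 - 4 * (w * X ^ (2 * (k + 3) + 1))) =
        X ^ 4 + 8 * (w * X ^ (2 * (k + 3) + 1)) * X + w * X ^ (2 * (k + 3) + 1) := by
      rw [hid]
      have h9 := PowerSeries.mul_inv_cancel _ hD0
      have hxi : xi K (2 * (k + 3) + 1) w 2 = (1 + w * X ^ (2 * k + 3) * (1 + 8 * X)) *
          (1 + 4 * X - 4 * w * X ^ (2 * k + 5))⁻¹ := by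
        rw [xi]
        rfl
      rw [hxi]
      linear_combination (X ^ 4 * (1 + w * X ^ (2 * k + 3) * (1 + 8 * X))) * h9
    have hφz := congrArg (algebraMap (PowerSeries K) (FractionRing (PowerSeries K))) hz
    simp only [map_mul, map_add, map_sub, map_pow, map_ofNat] at hφz ⊢
    exact hφz.symm
  | n + 3, h1, hn, ih =>
    obtain ⟨y₁, h₁, e₁⟩ := ih (n + 2) (by omega) (by omega) (by omega)
    obtain ⟨y₂, h₂, e₂⟩ := ih (n + 1) (by omega) (by omega) (by omega)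
    refine C4_step _ hφ w y _ h n _ _ _ (C4_xi_cc hm w (n + 1) (by omega)) h₁ h₂ e₁ e₂ ?_
    obtain ⟨k, rfl⟩ : ∃ k, m = n + 3 + k := ⟨m - (n + 3), by omega⟩
    have hD : constantCoeff ((1 - X ^ (n + 1) * xi K (2 * (n + 3 + k) + 1) w (n + 2)) ^ 2 *
        xi K (2 * (n + 3 + k) + 1) w (n + 1)) ≠ 0 := by
      simp [pow_succ, C4_xi_cc hm w (n + 1) (by omega)]
    have h9 := PowerSeries.mul_inv_cancel _ hD
    have hxi : xi K (2 * (n + 3 + k) + 1) w (n + 3) = (xi K (2 * (n + 3 + k) + 1) w (n + 2) ^ 2 +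
        w * X ^ (2 * k + 1) * (1 + 4 * X ^ (n + 2) * xi K (2 * (n + 3 + k) + 1) w (n + 2) + 4 * X)) *
        ((1 - X ^ (n + 1) * xi K (2 * (n + 3 + k) + 1) w (n + 2)) ^ 2 *
          xi K (2 * (n + 3 + k) + 1) w (n + 1))⁻¹ := by
      rw [xi, show 2 * (n + 3 + k) + 1 - 2 * (n + 2) - 2 = 2 * k + 1 by omega]
    rw [hxi]
    generalize xi K (2 * (n + 3 + k) + 1) w (n + 2) = A at h9 ⊢
    generalize xi K (2 * (n + 3 + k) + 1) w (n + 1) = B at h9 ⊢
    generalize ((1 - X ^ (n + 1) * A) ^ 2 * B)⁻¹ = D at h9 ⊢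
    linear_combination (X ^ (2 * n + 6) * (A ^ 2 + w * X ^ (2 * k + 1) * (1 + 4 * X ^ (n + 2) * A + 4 * X))) * h9

open Classical in
theorem last (h2 : (2 : K) ≠ 0) {m : ℕ} (hm : 3 ≤ m) (w y : PowerSeries K)
    (h : (EQ (FractionRing (PowerSeries K)) (algebraMap _ _ (w * X ^ (2 * m + 1)))).toAffine.Nonsingular
      (algebraMap _ _ (X : PowerSeries K)) (algebraMap _ _ y)) :
    ∃ (y' : FractionRing (PowerSeries K))
      (h' : (EQ (FractionRing (PowerSeries K)) (algebraMap _ _ (w * X ^ (2 * m + 1)))).toAffine.Nonsingular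
        (algebraMap _ _ (X ^ m * eta K m w)) y'),
      (m + 1) • (.some _ _ h : PQ (algebraMap (PowerSeries K) (FractionRing (PowerSeries K)) (w * X ^ (2 * m + 1)))) =
        .some _ _ h' := by
  have hφ : Function.Injective (algebraMap (PowerSeries K) (FractionRing (PowerSeries K))) :=
    IsFractionRing.injective _ _
  obtain ⟨n, rfl⟩ : ∃ n, m = n + 2 := ⟨m - 2, by omega⟩
  obtain ⟨y₁, h₁, e₁⟩ := mults h2 hm w y h (n + 2) (by omega) (by omega)
  obtain ⟨y₂, h₂, e₂⟩ := mults h2 hm w y h (n + 1) (by omega) (by omega)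
  refine C4_step _ hφ w y _ h n _ _ _ (C4_xi_cc hm w (n + 1) (by omega)) h₁ h₂ e₁ e₂ ?_
  have hD : constantCoeff ((1 - X ^ (n + 1) * xi K (2 * (n + 2) + 1) w (n + 2)) ^ 2 *
      xi K (2 * (n + 2) + 1) w (n + 1)) ≠ 0 := by
    simp [pow_succ, C4_xi_cc hm w (n + 1) (by omega)]
  have h9 := PowerSeries.mul_inv_cancel _ hD
  have heta : eta K (n + 2) w = (X * xi K (2 * (n + 2) + 1) w (n + 2) ^ 2 +
      w * (1 + 4 * X ^ (n + 2) * xi K (2 * (n + 2) + 1) w (n + 2) + 4 * X)) *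
      ((1 - X ^ (n + 1) * xi K (2 * (n + 2) + 1) w (n + 2)) ^ 2 *
        xi K (2 * (n + 2) + 1) w (n + 1))⁻¹ := by
    rw [eta, show n + 2 - 1 = n + 1 by omega]
  rw [heta]
  generalize xi K (2 * (n + 2) + 1) w (n + 2) = A at h9 ⊢
  generalize xi K (2 * (n + 2) + 1) w (n + 1) = B at h9 ⊢
  generalize ((1 - X ^ (n + 1) * A) ^ 2 * B)⁻¹ = D at h9 ⊢
  linear_combination (X ^ (2 * n + 5) * (X * A ^ 2 + w * (1 + 4 * X ^ (n + 2) * A + 4 * X))) * h9

end BIE
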