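import Pool.Agent.Lib.MP_10e784_agX.C1
import Pool.Agent.Lib.MP_10e784_agX.C2

/-!
# LEAF C3: the power series `w` and `y`

PROOF.  `exists_w`: `fixed` with `c = 1` and `T w = w - eta w + xi w m` (`eta_cc`, `xi_cc`, `eta_lip`, `xi_lip`).
`exists_y`: `fixed` with `c = 0` and `T t = X - w X ^ (l - 2) - t ^ 2` (`t² - t'² = (t - t') (t + t')`, `X ∣ t + t'`): `t + t² = X - w X ^ (l - 2)`, `X ∣ t`, `y = X t`: `y² + X y = X² (t² + t) = X³ - w X ^ l`.
-/

set_option autoImplicit false

namespace BIE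

open PowerSeries

variable {K : Type} [Field K]

theorem exists_w {m : ℕ} (hm : 3 ≤ m) : ∃ w : PowerSeries K, constantCoeff w = 1 ∧
    eta K m w = xi K (2 * m + 1) w m := by
  obtain ⟨w, hw, hT⟩ := fixed (K := K) 1 (fun w => w - eta K m w + xi K (2 * m + 1) w m)
    (fun w hw => by
      show constantCoeff (w - eta K m w + xi K (2 * m + 1) w m) = 1
      rw [map_add, map_sub, hw, eta_cc hm w hw, xi_cc hm w m le_rfl, sub_self, zero_add])
    (fun k w w' _ _ h => by
      show (X : PowerSeries K) ^ (k + 1) ∣ (w - eta K m w + xi K (2 * m + 1) w m) -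
        (w' - eta K m w' + xi K (2 * m + 1) w' m)
      have h1 := eta_lip hm w w' k h
      have h2 := xi_lip hm w w' k h m le_rfl
      have e : (w - eta K m w + xi K (2 * m + 1) w m) - (w' - eta K m w' + xi K (2 * m + 1) w' m) =
          (xi K (2 * m + 1) w m - xi K (2 * m + 1) w' m) -
            ((eta K m w - w) - (eta K m w' - w')) := by ring
      rw [e]
      exact dvd_sub h2 h1)
  refine ⟨w, hw, ?_⟩
  have h3 : w - eta K m w + xi K (2 * m + 1) w m = w := hT
  linear_combination -h3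

theorem exists_y (l : ℕ) (hl : 3 ≤ l) (w : PowerSeries K) : ∃ y : PowerSeries K,
    (X : PowerSeries K) ^ 2 ∣ y ∧ y ^ 2 + X * y = X ^ 3 - w * X ^ l := by
  obtain ⟨e, rfl⟩ : ∃ e, l = e + 3 := ⟨l - 3, by omega⟩
  obtain ⟨t, ht, hT⟩ := fixed (K := K) 0 (fun t => X - w * X ^ (e + 1) - t ^ 2)
    (fun t ht => by
      show constantCoeff (X - w * X ^ (e + 1) - t ^ 2) = 0
      rw [map_sub, map_sub, map_mul, map_pow, map_pow, ht, constantCoeff_X, zero_pow (Nat.succ_ne_zero e)]
      ring)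
    (fun k t t' ht ht' h => by
      show (X : PowerSeries K) ^ (k + 1) ∣ (X - w * X ^ (e + 1) - t ^ 2) -
        (X - w * X ^ (e + 1) - t' ^ 2)
      have h1 : (X : PowerSeries K) ∣ t + t' := by
        rw [X_dvd_iff, map_add, ht, ht', add_zero]
      have e1 : (X - w * X ^ (e + 1) - t ^ 2) - (X - w * X ^ (e + 1) - t' ^ 2) =
          -((t - t') * (t + t')) := by ring
      rw [e1, dvd_neg, pow_succ]
      exact mul_dvd_mul h h1)
  have h3 : X - w * X ^ (e + 1) - t ^ 2 = t := hT
  have h4 : (X : PowerSeries K) ∣ t := X_dvd_iff.2 ht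
  refine ⟨X * t, ?_, ?_⟩
  · rw [pow_two]
    exact mul_dvd_mul_left X h4
  · linear_combination (-(X : PowerSeries K) ^ 2) * h3

end BIE
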