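import Pool.Agent.Lib.MP_10e784_agX.PB1b

/-!
# LEAF PB2: the ladder computes the multiples
-/

set_option autoImplicit false

namespace BIE

variable {K : Type*} [Field K] [DecidableEq K]

theorem rep_lad (h6 : (6 : K) ≠ 0) {q : K} (hq : q ≠ 0) (hq' : 432 * q ≠ 1) {x y : K} (h0 : x ≠ 0)
    (h : (EQ K q).toAffine.Nonsingular x y) (n : ℕ) :
    Rep (lad x q n).1 (n • (.some x y h : PQ q)) ∧ Rep (lad x q n).2 ((n + 1) • (.some x y h : PQ q)) := by
  induction n using Nat.strong_induction_on with
  | _ n ih =>
    rcases n with _ | n
    · rw [lad]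
      constructor
      · rw [zero_smul]
        exact ⟨rfl, one_ne_zero⟩
      · rw [zero_add, one_smul]
        exact ⟨one_ne_zero, (mul_one x).symm⟩
    · obtain ⟨h1, h2⟩ := ih ((n + 1) / 2) (by omega)
      have h2' : Rep (lad x q ((n + 1) / 2)).2
          (((n + 1) / 2) • (.some x y h : PQ q) + .some x y h) := by
        rw [← succ_nsmul]; exact h2
      rw [lad]
      by_cases hp : (n + 1) % 2 = 1
      · rw [if_pos hp]
        constructor
        · have e : (n + 1) • (.some x y h : PQ q) =
              (2 : ℕ) • (((n + 1) / 2) • (.some x y h : PQ q)) + .some x y h := by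
            rw [← mul_smul, ← succ_nsmul]
            congr 1
            omega
          rw [e]
          exact rep_dad h6 hq hq' h0 h h1 h2'
        · have e : (n + 1 + 1) • (.some x y h : PQ q) =
              (2 : ℕ) • (((n + 1) / 2 + 1) • (.some x y h : PQ q)) := by
            rw [← mul_smul]
            congr 1
            omega
          rw [e]
          exact rep_dbl h6 hq hq' h2
      · rw [if_neg hp]
        constructor
        · have e : (n + 1) • (.some x y h : PQ q) =
              (2 : ℕ) • (((n + 1) / 2) • (.some x y h : PQ q)) := by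
            rw [← mul_smul]
            congr 1
            omega
          rw [e]
          exact rep_dbl h6 hq hq' h1
        · have e : (n + 1 + 1) • (.some x y h : PQ q) =
              (2 : ℕ) • (((n + 1) / 2) • (.some x y h : PQ q)) + .some x y h := by
            rw [← mul_smul, ← succ_nsmul]
            congr 1
            omega
          rw [e]
          exact rep_dad h6 hq hq' h0 h h1 h2'

theorem lad_zero (h6 : (6 : K) ≠ 0) {q : K} (hq : q ≠ 0) (hq' : 432 * q ≠ 1) {x y : K} (h0 : x ≠ 0)
    (h : (EQ K q).toAffine.Nonsingular x y) (n : ℕ) :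
    n • (.some x y h : PQ q) = 0 ↔ (lad x q n).1.2 = 0 :=
  rep_zero (rep_lad h6 hq hq' h0 h n).1

end BIE
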