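import Pool.Agent.Lib.MP_10e784_agX.Defs
import Pool.Agent.Lib.MP_10e784_agQ.QS1

/-!
# LEAF PB3: the ladder polynomials

PROOF.  `lad_map`: strong induction on `n`, `rw [lad]` on both sides, `dbl`, `dad`, `map_add`, `map_mul`, ..
`Zl_eval`: `lad_map` for the ring homomorphism `evalEvalRingHom x y` (or `(evalRingHom x).comp (evalRingHom (C y))`): `C X ↦ x`, `qq ↦ x³ - x y - y²`.
`Zl_sub2`: `lad_map` for the ring homomorphism `F ↦ (F.map (mapRingHom C)).evalEval X y`, which is `sub2`.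
`TD_lad`: for `n ≥ 1` all four components of `lad (C X) (qq K) n` have total degree `≤ 8 n² - 1`: `qq` has total degree `≤ 3` and if the components at `k = n / 2` have total degree `≤ T` then those at `n` have total degree `≤ 4 T + 3` (`HNQ.TD.add`, `.mul`, `.pow`, `TD_C`); so `T_n + 1 ≤ 4 (T_(n / 2) + 1)`, with `T_0 = 1`: `T_1 + 1 ≤ 8`, `T_n + 1 ≤ 4 · 8 (n / 2)² ≤ 8 n²`.
`lad_deg`: over `K[X]` with `x = X`, `q = C q₀`: degrees: `T_n + 1 ≤ 4 (T_(n / 2) + 1)` in the same way.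
-/

set_option autoImplicit false

namespace BIE

open Polynomial HNQ

theorem lad_map {R S : Type*} [CommRing R] [CommRing S] (φ : R →+* S) (x q : R) (n : ℕ) :
    lad (φ x) (φ q) n = ((φ (lad x q n).1.1, φ (lad x q n).1.2), (φ (lad x q n).2.1, φ (lad x q n).2.2)) := by
  induction n using Nat.strong_induction_on with
  | _ n ih =>
    cases n with
    | zero => simp [lad]
    | succ n =>
      rw [lad, lad, ih ((n + 1) / 2) (by omega)]
      split_ifs with h
      · simp only [dbl, dad, map_add, map_mul, map_pow, map_sub, map_ofNat]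
      · simp only [dbl, dad, map_add, map_mul, map_pow, map_sub, map_ofNat]

theorem Zl_eval {K : Type} [Field K] (l : ℕ) (x y : K) :
    (Zl K l).evalEval x y = (lad x (x ^ 3 - x * y - y ^ 2) l).1.2 := by
  have h := lad_map (evalEvalRingHom x y) (C X) (qq K) l
  have h1 : evalEvalRingHom x y (C X) = x := by
    simp
  have h2 : evalEvalRingHom x y (qq K) = x ^ 3 - x * y - y ^ 2 := by
    simp [qq]
    ring
  rw [h1, h2] at h
  rw [h]
  rfl

theorem sub2_hom {K : Type} [Field K] (x y : PowerSeries K) :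
    ∃ φ : K[X][X] →+* PowerSeries K, (∀ F, φ F = sub2 F x y) ∧ φ (C X) = x ∧ φ X = y ∧ ∀ c : K, φ (C (C c)) = PowerSeries.C c := by
  refine ⟨(evalEvalRingHom x y).comp (mapRingHom (mapRingHom (PowerSeries.C (R := K)))),
    fun F => rfl, ?_, ?_, fun c => ?_⟩
  · simp
  · simp
  · simp

theorem Zl_sub2 {K : Type} [Field K] (l : ℕ) (x y : PowerSeries K) :
    sub2 (Zl K l) x y = (lad x (x ^ 3 - x * y - y ^ 2) l).1.2 := by
  obtain ⟨φ, h0, h1, h2, h3⟩ := sub2_hom x y
  have h := lad_map φ (C X) (qq K) l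
  have h4 : φ (qq K) = x ^ 3 - x * y - y ^ 2 := by
    unfold qq
    rw [C_pow]
    simp only [map_sub, map_mul, map_pow, h1, h2]
  rw [h1, h4] at h
  rw [h, ← h0]
  rfl

/-- Filtrations by degree. -/
private structure PB3Dg {R : Type*} [CommRing R] (P : ℕ → R → Prop) : Prop where
  add : ∀ {n : ℕ} {a b : R}, P n a → P n b → P n (a + b)
  sub : ∀ {n : ℕ} {a b : R}, P n a → P n b → P n (a - b)
  mul : ∀ {n m : ℕ} {a b : R}, P n a → P m b → P (n + m) (a * b)
  mono : ∀ {n m : ℕ} {a : R}, P n a → n ≤ m → P m a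
  nat : ∀ k : ℕ, P 0 (k : R)

private theorem PB3Dg.pow {R : Type*} [CommRing R] {P : ℕ → R → Prop} (hP : PB3Dg P) {n : ℕ} {a : R}
    (ha : P n a) (k : ℕ) : P (n * k) (a ^ k) := by
  induction k with
  | zero =>
    rw [pow_zero, Nat.mul_zero]
    have := hP.nat 1
    rwa [Nat.cast_one] at this
  | succ k ih =>
    rw [pow_succ, Nat.mul_succ]
    exact hP.mul ih ha

private theorem PB3Dg.dbl {R : Type*} [CommRing R] {P : ℕ → R → Prop} (hP : PB3Dg P) {q : R}
    (hq : P 3 q) {T : ℕ} {a : R × R} (h1 : P T a.1) (h2 : P T a.2) :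
    P (4 * T + 3) (dbl q a).1 ∧ P (4 * T + 3) (dbl q a).2 := by
  have e8 : P 0 (8 : R) := by
    have := hP.nat 8
    rwa [Nat.cast_ofNat] at this
  have e4 : P 0 (4 : R) := by
    have := hP.nat 4
    rwa [Nat.cast_ofNat] at this
  unfold BIE.dbl
  constructor
  · refine hP.add (hP.add ?_ ?_) ?_
    · exact hP.mono (hP.pow h1 4) (by omega)
    · exact hP.mono (hP.mul (hP.mul (hP.mul e8 hq) h1) (hP.pow h2 3)) (by omega)
    · exact hP.mono (hP.mul hq (hP.pow h2 4)) (by omega)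
  · have h3 : P (3 * T + 3) (4 * a.1 ^ 3 + a.1 ^ 2 * a.2 - 4 * q * a.2 ^ 3) := by
      refine hP.sub (hP.add ?_ ?_) ?_
      · exact hP.mono (hP.mul e4 (hP.pow h1 3)) (by omega)
      · exact hP.mono (hP.mul (hP.pow h1 2) h2) (by omega)
      · exact hP.mono (hP.mul (hP.mul e4 hq) (hP.pow h2 3)) (by omega)
    exact hP.mono (hP.mul h2 h3) (by omega)

private theorem PB3Dg.dad {R : Type*} [CommRing R] {P : ℕ → R → Prop} (hP : PB3Dg P) {x q : R}
    (hx : P 1 x) (hq : P 3 q) {T : ℕ} {a b : R × R} (h1 : P T a.1) (h2 : P T a.2) (h3 : P T b.1)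
    (h4 : P T b.2) : P (4 * T + 3) (dad x q a b).1 ∧ P (4 * T + 3) (dad x q a b).2 := by
  have e4 : P 0 (4 : R) := by
    have := hP.nat 4
    rwa [Nat.cast_ofNat] at this
  unfold BIE.dad
  constructor
  · refine hP.add (hP.add ?_ ?_) ?_
    · exact hP.mono (hP.mul (hP.pow h1 2) (hP.pow h3 2)) (by omega)
    · have h5 : P (2 * T) (a.1 * b.2 + b.1 * a.2) :=
        hP.add (hP.mono (hP.mul h1 h4) (by omega)) (hP.mono (hP.mul h3 h2) (by omega))
      exact hP.mono (hP.mul (hP.mul (hP.mul (hP.mul e4 hq) h2) h4) h5) (by omega)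
    · exact hP.mono (hP.mul (hP.mul hq (hP.pow h2 2)) (hP.pow h4 2)) (by omega)
  · have h5 : P (2 * T) (a.1 * b.2 - b.1 * a.2) :=
      hP.sub (hP.mono (hP.mul h1 h4) (by omega)) (hP.mono (hP.mul h3 h2) (by omega))
    exact hP.mono (hP.mul hx (hP.pow h5 2)) (by omega)

/-- One step of the ladder. -/
private theorem PB3Dg.step {R : Type*} [CommRing R] {P : ℕ → R → Prop} (hP : PB3Dg P) {x q : R}
    (hx : P 1 x) (hq : P 3 q) (n T : ℕ)
    (h : (P T (lad x q ((n + 1) / 2)).1.1 ∧ P T (lad x q ((n + 1) / 2)).1.2) ∧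
      P T (lad x q ((n + 1) / 2)).2.1 ∧ P T (lad x q ((n + 1) / 2)).2.2) :
    (P (4 * T + 3) (lad x q (n + 1)).1.1 ∧ P (4 * T + 3) (lad x q (n + 1)).1.2) ∧
      P (4 * T + 3) (lad x q (n + 1)).2.1 ∧ P (4 * T + 3) (lad x q (n + 1)).2.2 := by
  obtain ⟨⟨h1, h2⟩, h3, h4⟩ := h
  rw [lad]
  split_ifs
  · exact ⟨hP.dad hx hq h1 h2 h3 h4, hP.dbl hq h3 h4⟩
  · exact ⟨hP.dbl hq h1 h2, hP.dad hx hq h1 h2 h3 h4⟩

private theorem PB3Dg.all {R : Type*} [CommRing R] {P : ℕ → R → Prop} (hP : PB3Dg P) {x q : R}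
    (hx : P 1 x) (hq : P 3 q) (n : ℕ) : ∃ T : ℕ, (T + 1 ≤ 2 ∧ n = 0 ∨ T + 1 ≤ 8 * n ^ 2) ∧
    (P T (lad x q n).1.1 ∧ P T (lad x q n).1.2) ∧ P T (lad x q n).2.1 ∧ P T (lad x q n).2.2 := by
  induction n using Nat.strong_induction_on with
  | _ n ih =>
    cases n with
    | zero =>
      refine ⟨1, Or.inl ⟨le_rfl, rfl⟩, ?_⟩
      have e1 : P 1 (1 : R) := by
        have := hP.nat 1
        rw [Nat.cast_one] at this
        exact hP.mono this (by omega)
      have e0 : P 1 (0 : R) := by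
        have := hP.nat 0
        rw [Nat.cast_zero] at this
        exact hP.mono this (by omega)
      rw [lad]
      exact ⟨⟨e1, e0⟩, hx, e1⟩
    | succ n =>
      obtain ⟨T, hT, h⟩ := ih ((n + 1) / 2) (by omega)
      refine ⟨4 * T + 3, Or.inr ?_, hP.step hx hq n T h⟩
      rcases hT with ⟨h1, h2⟩ | h1
      · have h3 : n = 0 := by omega
        subst h3
        omega
      · have h3 : 2 * ((n + 1) / 2) ≤ n + 1 := by omega
        have h4 : (2 * ((n + 1) / 2)) ^ 2 ≤ (n + 1) ^ 2 := Nat.pow_le_pow_left h3 2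
        have h5 : (2 * ((n + 1) / 2)) ^ 2 = 4 * ((n + 1) / 2) ^ 2 := by ring
        omega

private theorem PB3Dg.Zl {R : Type*} [CommRing R] {P : ℕ → R → Prop} (hP : PB3Dg P) {x q : R}
    (hx : P 1 x) (hq : P 3 q) (n : ℕ) (hn : 1 ≤ n) : P (8 * n ^ 2) (lad x q n).1.2 := by
  obtain ⟨T, hT, h⟩ := hP.all hx hq n
  refine hP.mono h.1.2 ?_
  rcases hT with ⟨-, h1⟩ | h1
  · omega
  · omega

theorem TD_Zl {K : Type} [Field K] (n : ℕ) (hn : 1 ≤ n) : TD (8 * n ^ 2) (Zl K n) := by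
  have hP : PB3Dg (TD : ℕ → K[X][X] → Prop) :=
    { add := fun h1 h2 => h1.add h2
      sub := fun h1 h2 => h1.sub h2
      mul := fun h1 h2 => h1.mul h2
      mono := fun h1 h2 => h1.mono h2
      nat := fun k => by
        have h1 : ((k : ℕ) : K[X][X]) = C ((k : ℕ) : K[X]) := (map_natCast C k).symm
        rw [h1]
        exact TD_C _ (by rw [natDegree_natCast]) }
  have hx : TD 1 (C X : K[X][X]) := TD_C _ natDegree_X_le
  have hq : TD 3 (qq K) := by
    unfold qq
    refine TD.sub (TD.sub ?_ ?_) ?_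
    · exact TD_C _ (natDegree_X_pow_le 3)
    · have h1 : TD 1 (X : K[X][X]) := by
        have := TD_X_pow (K := K) 1
        rwa [pow_one] at this
      exact (hx.mul h1).mono (by omega)
    · exact (TD_X_pow 2).mono (by omega)
  exact hP.Zl hx hq n hn

theorem lad_deg {K : Type} [Field K] (q : K) (n : ℕ) (hn : 1 ≤ n) :
    (lad (X : K[X]) (C q) n).1.2.natDegree ≤ 8 * n ^ 2 := by
  have hP : PB3Dg (fun (n : ℕ) (a : K[X]) => a.natDegree ≤ n) :=
    { add := fun h1 h2 => (natDegree_add_le _ _).trans (max_le h1 h2)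
      sub := fun h1 h2 => (natDegree_sub_le _ _).trans (max_le h1 h2)
      mul := fun h1 h2 => natDegree_mul_le.trans (add_le_add h1 h2)
      mono := fun h1 h2 => h1.trans h2
      nat := fun k => by rw [natDegree_natCast] }
  exact hP.Zl (x := X) (q := C q) natDegree_X_le (by rw [natDegree_C]; omega) n hn

end BIE
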