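import Pool.Agent.Lib.MP_10e784_agX.Defs

/-!
# Counting: definitions
-/

set_option autoImplicit false

namespace BIE

/-- the points `(x, y)` of the plane such that `l P = 0` for the point `P = (x, y)` of the curve `y² + x y = x³ - q` -/
def Tp (p l : ℕ) [Fact p.Prime] : Set (ZMod p × ZMod p) :=
  {z | z.1 ^ 3 - z.1 * z.2 - z.2 ^ 2 ≠ 0 ∧ 432 * (z.1 ^ 3 - z.1 * z.2 - z.2 ^ 2) ≠ 1 ∧
    ∃ h, l • (.some z.1 z.2 h : PQ (z.1 ^ 3 - z.1 * z.2 - z.2 ^ 2)) = 0}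

/-- the `q` such that `l ^ k` divides the number of points of `y² + x y = x³ - q` -/
def Sq (p l k : ℕ) [Fact p.Prime] : Set (ZMod p) :=
  {q | q ≠ 0 ∧ 432 * q ≠ 1 ∧ l ^ k ∣ Nat.card (PQ q)}

/-- the union over the primes `l` in `(U, 4 U]` -/
def SU (p U k : ℕ) [Fact p.Prime] : Set (ZMod p) :=
  {q | q ≠ 0 ∧ 432 * q ≠ 1 ∧ ∃ l : ℕ, l.Prime ∧ U < l ∧ l ≤ 4 * U ∧ l ^ k ∣ Nat.card (PQ q)}

/-- the interface of block W: many points of `F = 0` over `ZMod p` on the component of a branch `(s, y(s))` -/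
def FactW : Prop := ∃ C0 c0 : ℕ, ∀ (p n : ℕ) [Fact p.Prime], 1 ≤ n → C0 * n ^ c0 ≤ p →
  ∀ (F : Polynomial (Polynomial (ZMod p))) (y : PowerSeries (ZMod p)), F ≠ 0 → HNQ.TD n F →
    (PowerSeries.X : PowerSeries (ZMod p)) ^ 2 ∣ y → sub2 F PowerSeries.X y = 0 →
    ∃ Z : Finset (ZMod p × ZMod p), (p : ℝ) / 2 ≤ Z.card ∧ (∀ z ∈ Z, F.evalEval z.1 z.2 = 0) ∧
      ∀ (m : ℕ) (G : Polynomial (Polynomial (ZMod p))), HNQ.TD m G → sub2 G PowerSeries.X y ≠ 0 →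
        Nat.card {z : Z // G.evalEval z.1.1 z.1.2 = 0} ≤ n * (n + m) ^ 2

end BIE
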