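import Pool.Agent.Lib.MP_10e784_agX.D1c

/-!
# LEAF D3a: the subgroup killed by `l`

PROOF.  `tc_pow`: `{P // l • P = 0}` is (the type of) a finite additive subgroup (`AddMonoidHom.ker` of the multiplication by `l`, or `AddSubgroup.torsionBy`), all its elements are killed by the prime `l`, so its cardinality is `l ^ k` (`IsPGroup` for `Multiplicative`, or `ZMod l` module: `card_eq_pow_finrank`), it divides `Nat.card (PQ q)` (Lagrange); `l ^ k ≤ 16 l² + 3 < l³` by `tors_bd`, `l ≥ 17`, so `k ≤ 2`.  (`PQ q` is finite: pairs and `0`.)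
-/

set_option autoImplicit false

namespace BIE

/-- the curve has finitely many points -/
theorem D3a_finite (p : ℕ) [Fact p.Prime] (q : ZMod p) : Finite (PQ q) := by
  have hinj : Function.Injective (fun P : PQ q => (match P with
      | .zero => none
      | .some x y _ => some (x, y) : Option (ZMod p × ZMod p))) := by
    intro P Q h
    cases P with
    | zero =>
      cases Q with
      | zero => rfl
      | some x y h' => simp at h
    | some x y h' =>
      cases Q with
      | zero => simp at h
      | some x' y' h'' =>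
        simp only [Option.some.injEq, Prod.mk.injEq] at h
        obtain ⟨rfl, rfl⟩ := h
        rfl
  exact Finite.of_injective _ hinj

theorem tc_pow (p l : ℕ) [Fact p.Prime] (hp : 5 ≤ p) (hl : l.Prime) (h17 : 17 ≤ l) {q : ZMod p} (hq : q ≠ 0)
    (hq' : 432 * q ≠ 1) : ∃ k ≤ 2, Nat.card {P : PQ q // l • P = 0} = l ^ k ∧ l ^ k ∣ Nat.card (PQ q) := by
  have := D3a_finite p q
  have : Fact l.Prime := ⟨hl⟩
  have hodd : Odd l := hl.odd_of_ne_two (by omega)
  have hbd := tors_bd hp hq hq' l (by omega) hodd
  set S : AddSubgroup (PQ q) := (nsmulAddMonoidHom (α := PQ q) l).ker with hS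
  have hcard : Nat.card {P : PQ q // l • P = 0} = Nat.card S := by
    refine Nat.card_congr (Equiv.subtypeEquivRight fun P => ?_)
    rw [hS, AddMonoidHom.mem_ker]
    rfl
  have hP : IsPGroup l (Multiplicative S) := by
    intro g
    refine ⟨1, ?_⟩
    rw [pow_one]
    have h0 : ∀ P : PQ q, P ∈ S → l • P = 0 := fun P hP => by
      rw [hS, AddMonoidHom.mem_ker] at hP
      exact hP
    have h1 := h0 _ (Multiplicative.toAdd g : S).2
    have h2 : l • (Multiplicative.toAdd g : S) = 0 := by
      apply Subtype.ext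
      exact h1
    exact h2
  obtain ⟨k, hk⟩ := (IsPGroup.iff_card (p := l) (G := Multiplicative S)).1 hP
  have hk' : Nat.card S = l ^ k := hk
  refine ⟨k, ?_, ?_, ?_⟩
  · by_contra hc
    push Not at hc
    have h3 : l ^ 3 ≤ l ^ k := Nat.pow_le_pow_right (by omega) hc
    rw [hcard, hk'] at hbd
    have h4 : l ^ 3 ≤ 16 * l ^ 2 + 3 := h3.trans hbd
    have h5 : 17 * l ^ 2 ≤ l ^ 3 := by
      calc 17 * l ^ 2 ≤ l * l ^ 2 := Nat.mul_le_mul_right _ h17
        _ = l ^ 3 := by ring
    have h6 : 4 ≤ l ^ 2 := by nlinarith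
    omega
  · rw [hcard, hk']
  · rw [← hk']
    exact AddSubgroup.card_addSubgroup_dvd_card S

end BIE
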