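import Mathlib

/-!
# LEAF D0: prime numbers in `(U, 4 U]`

PROOF.  Mathlib `Mathlib/NumberTheory/Chebyshev.lean`: `Chebyshev.theta_ge` (or `theta_ge'`), `theta_le_log4_mul_x`: `θ (4 U) - θ U ≥ 4 U log 2 - log (4 U + 1) - 2 √(4 U) log (4 U) - U log 4 = 2 U log 2 - o(U) ≥ 1.2 U` for large `U`, and `θ (4 U) - θ U = ∑ log l ≤ (number) log (4 U)`, `1.2 U / log (4 U) ≥ U / log U` for large `U`.
-/

set_option autoImplicit false

namespace BIE

private theorem D0_theta_diff (U : ℕ) : Chebyshev.theta ((4 * U : ℕ) : ℝ) - Chebyshev.theta (U : ℝ)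
    ≤ ((Finset.Ioc U (4 * U)).filter Nat.Prime).card * Real.log (4 * U : ℕ) := by
  have e : ∀ n : ℕ, Chebyshev.theta (n : ℝ) = ∑ p ∈ (Finset.Ioc 0 n).filter Nat.Prime, Real.log p := by
    intro n
    simp [Chebyshev.theta]
  have hU : U ≤ 4 * U := by omega
  have hsplit : (Finset.Ioc 0 (4 * U)).filter Nat.Prime =
      ((Finset.Ioc 0 U).filter Nat.Prime) ∪ ((Finset.Ioc U (4 * U)).filter Nat.Prime) := by
    ext p
    simp only [Finset.mem_filter, Finset.mem_Ioc, Finset.mem_union]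
    constructor
    · rintro ⟨⟨h1, h2⟩, h3⟩
      by_cases h : p ≤ U
      · exact Or.inl ⟨⟨h1, h⟩, h3⟩
      · exact Or.inr ⟨⟨by omega, h2⟩, h3⟩
    · rintro (⟨⟨h1, h2⟩, h3⟩ | ⟨⟨h1, h2⟩, h3⟩)
      · exact ⟨⟨h1, by omega⟩, h3⟩
      · exact ⟨⟨by omega, h2⟩, h3⟩
  have hdisj : Disjoint ((Finset.Ioc 0 U).filter Nat.Prime)
      ((Finset.Ioc U (4 * U)).filter Nat.Prime) := by
    rw [Finset.disjoint_left]
    intro p hp hq
    simp only [Finset.mem_filter, Finset.mem_Ioc] at hp hq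
    omega
  rw [e, e, hsplit, Finset.sum_union hdisj, add_sub_cancel_left, ← nsmul_eq_mul]
  refine Finset.sum_le_card_nsmul _ _ _ ?_
  intro p hp
  simp only [Finset.mem_filter, Finset.mem_Ioc] at hp
  exact Real.log_le_log (by exact_mod_cast hp.2.pos) (by exact_mod_cast hp.1.2)

theorem primes4 : ∃ U0 : ℕ, ∀ U : ℕ, U0 ≤ U →
    (U : ℝ) / Real.log U ≤ ((Finset.Ioc U (4 * U)).filter Nat.Prime).card := by
  refine ⟨10 ^ 10, fun U hU => ?_⟩
  have hUR : (10 : ℝ) ^ 10 ≤ (U : ℝ) := by exact_mod_cast hU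
  have hU0 : (0 : ℝ) ≤ U := Nat.cast_nonneg U
  set t : ℝ := (U : ℝ) ^ ((1 : ℝ) / 4) with ht
  have ht0 : 0 ≤ t := Real.rpow_nonneg hU0 _
  have ht4 : t ^ 4 = U := by
    rw [ht, ← Real.rpow_natCast, ← Real.rpow_mul hU0]
    norm_num
  have htb : 223 ≤ t := by
    by_contra hcon
    push Not at hcon
    have h1 : t ^ 4 ≤ (223 : ℝ) ^ 4 := pow_le_pow_left₀ ht0 hcon.le 4
    rw [ht4] at h1
    norm_num at h1
    linarith
  have hsq : Real.sqrt ((4 * U : ℕ) : ℝ) = 2 * t ^ 2 := by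
    rw [Real.sqrt_eq_iff_eq_sq (by positivity) (by positivity)]
    push_cast
    rw [← ht4]
    ring
  have hlog : Real.log (((4 * U : ℕ) : ℝ) + 1) ≤ 8 * t := by
    have h1 := Real.log_le_rpow_div (x := ((4 * U : ℕ) : ℝ) + 1) (ε := (1 : ℝ) / 4)
      (by positivity) (by norm_num)
    have h2 : (((4 * U : ℕ) : ℝ) + 1) ^ ((1 : ℝ) / 4) ≤ 2 * t := by
      have h3 : (((4 * U : ℕ) : ℝ) + 1) ≤ (2 * t) ^ 4 := by
        push_cast
        rw [mul_pow, ht4]
        nlinarith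
      have h4 : (((4 * U : ℕ) : ℝ) + 1) ^ ((1 : ℝ) / 4) ≤ ((2 * t) ^ 4) ^ ((1 : ℝ) / 4) :=
        Real.rpow_le_rpow (by positivity) h3 (by norm_num)
      have h5 : ((2 * t) ^ 4) ^ ((1 : ℝ) / 4) = 2 * t := by
        rw [← Real.rpow_natCast, ← Real.rpow_mul (by positivity)]
        norm_num
      linarith
    have h6 : (((4 * U : ℕ) : ℝ) + 1) ^ ((1 : ℝ) / 4) / ((1 : ℝ) / 4) =
        4 * (((4 * U : ℕ) : ℝ) + 1) ^ ((1 : ℝ) / 4) := by
      ring
    rw [h6] at h1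
    linarith
  have hlog' : Real.log ((4 * U : ℕ) : ℝ) ≤ 8 * t := by
    refine le_trans (Real.log_le_log ?_ (by linarith)) hlog
    push_cast
    nlinarith
  have hge := Chebyshev.theta_ge (4 * U)
  have hle := Chebyshev.theta_le_log4_mul_x (x := (U : ℝ)) hU0
  have hd := D0_theta_diff U
  set N : ℝ := (((Finset.Ioc U (4 * U)).filter Nat.Prime).card : ℝ) with hN
  have hN0 : 0 ≤ N := Nat.cast_nonneg _
  have hlog4 : Real.log 4 = 2 * Real.log 2 := by
    rw [show (4 : ℝ) = 2 ^ 2 by norm_num, Real.log_pow]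
    norm_num
  have hlog2 := Real.log_two_gt_d9
  have hlog2' := Real.log_two_lt_d9
  have hmain : 1.2 * (U : ℝ) ≤ N * Real.log ((4 * U : ℕ) : ℝ) := by
    have h1 : 2 * Real.sqrt ((4 * U : ℕ) : ℝ) * Real.log ((4 * U : ℕ) : ℝ) ≤ 32 * t ^ 3 := by
      rw [hsq]
      calc 2 * (2 * t ^ 2) * Real.log ((4 * U : ℕ) : ℝ) ≤ 2 * (2 * t ^ 2) * (8 * t) :=
            mul_le_mul_of_nonneg_left hlog' (by positivity)
        _ = 32 * t ^ 3 := by ring
    have h2 : 8 * t + 32 * t ^ 3 ≤ 0.18 * (U : ℝ) := by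
      rw [← ht4]
      have h3 : 0 ≤ t * (0.18 * t ^ 3 - 32 * t ^ 2 - 8) := by
        apply mul_nonneg ht0
        have : (0.18 * t - 32) * t ^ 2 ≥ 8 := by
          have h4 : 8 ≤ 0.18 * t - 32 := by linarith
          nlinarith
        nlinarith
      nlinarith
    have h5 : ((4 * U : ℕ) : ℝ) * Real.log 2 = 4 * U * Real.log 2 := by push_cast; ring
    rw [h5] at hge
    rw [hlog4] at hle
    nlinarith
  have hlogU : 0 < Real.log (U : ℝ) := Real.log_pos (by linarith)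
  have hl4 : Real.log ((4 * U : ℕ) : ℝ) ≤ 1.2 * Real.log (U : ℝ) := by
    push_cast
    rw [Real.log_mul (by norm_num) (by linarith), hlog4]
    have h1 : Real.log ((2 : ℝ) ^ 10) ≤ Real.log (U : ℝ) :=
      Real.log_le_log (by norm_num) (by linarith)
    rw [Real.log_pow] at h1
    push_cast at h1
    linarith
  rw [div_le_iff₀ hlogU]
  have h7 : N * Real.log ((4 * U : ℕ) : ℝ) ≤ N * (1.2 * Real.log (U : ℝ)) :=
    mul_le_mul_of_nonneg_left hl4 hN0
  nlinarith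

end BIE
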