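import Pool.Agent.Lib.MP_10e784_agX.DDefs
import Pool.Agent.Lib.MP_10e784_agX.D0

/-!
# LEAF D4: the union over `l`

PROOF.  `card_PQ_le`: a point is `0` or a pair `(x, y)` with at most two `y` for every `x`.
`union`: `𝓛` = the primes in `(U, 4 U]`, `n = card 𝓛 ≥ U / log U` (`primes4`).  For every `l ∈ 𝓛`: `p / 3 ≤ 4 U a_l + 16 U² b_l` (`a_l = card (Sq p l 1)`, `b_l = card (Sq p l 2)`), so `a_l ≥ p / (24 U)` or `b_l ≥ p / (96 U²)`.  One of the two holds for at least `n / 2` of the `l`.  First case: `∑_l a_l ≥ (n / 2) (p / (24 U))`; `∑_l a_l = ∑_(q ∈ SU p U 1) #{l ∈ 𝓛 : l ∣ card (PQ q)}` (double counting) and the number of these `l` is at most `2 log p / log U`, as their product divides `card (PQ q) ≤ 2 p + 1 ≤ p²` and every one is `> U` (`Finset.prod_primes_dvd`); so `card (SU p U 1) ≥ (U / (2 log U)) (p / (24 U)) (log U / (2 log p)) = p / (96 log p)`.  Second case in the same way: `≥ p / (384 U log p)`.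
-/

set_option autoImplicit false

namespace BIE

/-- the points of the plane curve -/
private noncomputable def D4_S (p : ℕ) [Fact p.Prime] (q : ZMod p) : Finset (ZMod p × ZMod p) :=
  Finset.univ.filter fun z => z.2 ^ 2 + z.1 * z.2 = z.1 ^ 3 - q

private noncomputable def D4_f (p : ℕ) [Fact p.Prime] (q : ZMod p) : PQ q → Option (D4_S p q)
  | .zero => none
  | .some x y h => some ⟨(x, y), by
      have h1 := h.1
      rw [WeierstrassCurve.Affine.equation_iff] at h1
      rw [D4_S, Finset.mem_filter]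
      refine ⟨Finset.mem_univ _, ?_⟩
      have h2 : (EQ (ZMod p) q).toAffine.a₁ = 1 := rfl
      have h3 : (EQ (ZMod p) q).toAffine.a₂ = 0 := rfl
      have h4 : (EQ (ZMod p) q).toAffine.a₃ = 0 := rfl
      have h5 : (EQ (ZMod p) q).toAffine.a₄ = 0 := rfl
      have h6 : (EQ (ZMod p) q).toAffine.a₆ = -q := rfl
      rw [h2, h3, h4, h5, h6] at h1
      show y ^ 2 + x * y = x ^ 3 - q
      linear_combination h1⟩

private theorem D4_inj (p : ℕ) [Fact p.Prime] (q : ZMod p) : Function.Injective (D4_f p q) := by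
  intro P Q h
  cases P with
  | zero =>
    cases Q with
    | zero => rfl
    | some x y h' => simp [D4_f] at h
  | some x y h' =>
    cases Q with
    | zero => simp [D4_f] at h
    | some x' y' h'' =>
      simp only [D4_f, Option.some.injEq, Subtype.mk.injEq, Prod.mk.injEq] at h
      obtain ⟨h1, h2⟩ := h
      subst h1
      subst h2
      rfl

private theorem D4_fin (p : ℕ) [Fact p.Prime] (q : ZMod p) : Finite (PQ q) :=
  Finite.of_injective _ (D4_inj p q)

private theorem D4_two (p : ℕ) [Fact p.Prime] (x c : ZMod p) :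
    (Finset.univ.filter fun y : ZMod p => y ^ 2 + x * y = c).card ≤ 2 := by
  classical
  rcases (Finset.univ.filter fun y : ZMod p => y ^ 2 + x * y = c).eq_empty_or_nonempty with h | ⟨y, hy⟩
  · rw [h]
    simp
  · have hsub : (Finset.univ.filter fun y : ZMod p => y ^ 2 + x * y = c) ⊆ {y, -x - y} := by
      intro z hz
      rw [Finset.mem_filter] at hy hz
      rw [Finset.mem_insert, Finset.mem_singleton]
      have h1 : (z - y) * (z + y + x) = 0 := by linear_combination hz.2 - hy.2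
      rcases mul_eq_zero.1 h1 with h2 | h2
      · left
        exact sub_eq_zero.1 h2
      · right
        linear_combination h2
    exact (Finset.card_le_card hsub).trans Finset.card_le_two

theorem card_PQ_le (p : ℕ) [Fact p.Prime] (q : ZMod p) : Nat.card (PQ q) ≤ 2 * p + 1 := by
  classical
  have h1 : Nat.card (PQ q) ≤ Nat.card (Option (D4_S p q)) :=
    Nat.card_le_card_of_injective _ (D4_inj p q)
  have h2 : Nat.card (Option (D4_S p q)) = (D4_S p q).card + 1 := by
    rw [Nat.card_eq_fintype_card, Fintype.card_option, Fintype.card_coe]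
  have h3 : (D4_S p q).card ≤ 2 * p := by
    have h4 : (D4_S p q).card = ∑ x : ZMod p, ((D4_S p q).filter fun z => z.1 = x).card :=
      Finset.card_eq_sum_card_fiberwise fun z _ => Finset.mem_univ _
    have h5 : ∀ x : ZMod p, ((D4_S p q).filter fun z => z.1 = x).card ≤ 2 := by
      intro x
      refine le_trans ?_ (D4_two p x (x ^ 3 - q))
      refine Finset.card_le_card_of_injOn (fun z => z.2) ?_ ?_
      · intro z hz
        rw [Finset.mem_coe, Finset.mem_filter, D4_S, Finset.mem_filter] at hz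
        rw [Finset.mem_coe, Finset.mem_filter]
        refine ⟨Finset.mem_univ _, ?_⟩
        have h6 := hz.1.2
        rw [hz.2] at h6
        exact h6
      · intro z hz z' hz' h6
        rw [Finset.mem_coe, Finset.mem_filter] at hz hz'
        exact Prod.ext (hz.2.trans hz'.2.symm) h6
    rw [h4]
    refine (Finset.sum_le_sum fun x _ => h5 x).trans ?_
    rw [Finset.sum_const, Finset.card_univ, ZMod.card, smul_eq_mul, mul_comm]
  omega

/-- the number of the primes -/
private theorem D4_primes {p U k : ℕ} [Fact p.Prime] (hU : 2 ≤ U) (hp : 5 ≤ p) (hk : 1 ≤ k)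
    (q : ZMod p) (s : Finset ℕ) (hs : ∀ l ∈ s, l.Prime ∧ U < l ∧ l ^ k ∣ Nat.card (PQ q)) :
    (s.card : ℝ) * Real.log U ≤ 2 * Real.log p := by
  have hfin := D4_fin p q
  have hpos : 0 < Nat.card (PQ q) := Nat.card_pos
  have h1 : ∏ l ∈ s, l ∣ Nat.card (PQ q) :=
    Finset.prod_primes_dvd _ (fun l hl => (hs l hl).1.prime)
      (fun l hl => (dvd_pow_self l (by omega)).trans (hs l hl).2.2)
  have h2 : U ^ s.card ≤ ∏ l ∈ s, l := Finset.pow_card_le_prod _ _ _ fun l hl => (hs l hl).2.1.le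
  have h3 : U ^ s.card ≤ p ^ 2 := by
    have h4 := Nat.le_of_dvd hpos h1
    have h5 := card_PQ_le p q
    nlinarith
  have h4 : Real.log ((U : ℝ) ^ s.card) ≤ Real.log ((p : ℝ) ^ 2) := by
    refine Real.log_le_log ?_ (by exact_mod_cast h3)
    have : (0 : ℝ) < U := by exact_mod_cast (by omega : 0 < U)
    positivity
  rw [Real.log_pow, Real.log_pow] at h4
  exact_mod_cast h4

/-- double counting -/
private theorem D4_count {p U k : ℕ} [Fact p.Prime] (hU : 2 ≤ U) (hp : 5 ≤ p) (hk : 1 ≤ k)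
    (s : Finset ℕ) (hs : ∀ l ∈ s, l.Prime ∧ U < l ∧ l ≤ 4 * U) {B : ℝ}
    (hB : ∀ l ∈ s, B ≤ Nat.card (Sq p l k)) :
    (s.card : ℝ) * B * Real.log U ≤ Nat.card (SU p U k) * (2 * Real.log p) := by
  classical
  obtain ⟨Q, hQ⟩ : ∃ Q : Finset (ZMod p), Q = Finset.univ.filter fun q => q ∈ SU p U k := ⟨_, rfl⟩
  have hQc : Nat.card (SU p U k) = Q.card := by
    rw [Nat.card_eq_fintype_card, hQ, Fintype.card_subtype]
  have hlc : ∀ l ∈ s, Nat.card (Sq p l k) = (Q.filter fun q => q ∈ Sq p l k).card := by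
    intro l hl
    rw [Nat.card_eq_fintype_card, Fintype.card_subtype, hQ, Finset.filter_filter]
    congr 1
    ext q
    simp only [Finset.mem_filter, Finset.mem_univ, true_and]
    constructor
    · intro h
      exact ⟨⟨h.1, h.2.1, l, (hs l hl).1, (hs l hl).2.1, (hs l hl).2.2, h.2.2⟩, h⟩
    · exact fun h => h.2
  have hdc : ∑ l ∈ s, (Q.filter fun q => q ∈ Sq p l k).card =
      ∑ q ∈ Q, (s.filter fun l => q ∈ Sq p l k).card :=
    Finset.sum_card_bipartiteAbove_eq_sum_card_bipartiteBelow fun l q => q ∈ Sq p l k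
  have hlog : 0 ≤ Real.log U := Real.log_nonneg (by exact_mod_cast (by omega : 1 ≤ U))
  calc (s.card : ℝ) * B * Real.log U = (∑ l ∈ s, B) * Real.log U := by
        rw [Finset.sum_const, nsmul_eq_mul]
    _ ≤ (∑ l ∈ s, (Nat.card (Sq p l k) : ℝ)) * Real.log U :=
        mul_le_mul_of_nonneg_right (Finset.sum_le_sum hB) hlog
    _ = (∑ q ∈ Q, ((s.filter fun l => q ∈ Sq p l k).card : ℝ)) * Real.log U := by
        congr 1
        have h1 : ∑ l ∈ s, (Nat.card (Sq p l k) : ℝ) =
            ((∑ l ∈ s, (Q.filter fun q => q ∈ Sq p l k).card : ℕ) : ℝ) := by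
          push_cast
          exact Finset.sum_congr rfl fun l hl => by rw [hlc l hl]
        rw [h1, hdc]
        push_cast
        rfl
    _ = ∑ q ∈ Q, ((s.filter fun l => q ∈ Sq p l k).card : ℝ) * Real.log U := by
        rw [Finset.sum_mul]
    _ ≤ ∑ q ∈ Q, 2 * Real.log p := by
        refine Finset.sum_le_sum fun q _ => D4_primes hU hp hk q _ fun l hl => ?_
        rw [Finset.mem_filter] at hl
        exact ⟨(hs l hl.1).1, (hs l hl.1).2.1, hl.2.2.2⟩
    _ = _ := by rw [Finset.sum_const, nsmul_eq_mul, hQc]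

theorem union : ∃ c : ℝ, 0 < c ∧ ∃ U1 : ℕ, ∀ (p U : ℕ) [Fact p.Prime], U1 ≤ U → 5 ≤ p →
    (∀ l : ℕ, l.Prime → U < l → l ≤ 4 * U →
      (p : ℝ) / 3 ≤ (l : ℝ) * Nat.card (Sq p l 1) + (l : ℝ) ^ 2 * Nat.card (Sq p l 2)) →
    c * p / Real.log p ≤ Nat.card (SU p U 1) ∨ c * p / (U * Real.log p) ≤ Nat.card (SU p U 2) := by
  classical
  obtain ⟨U0, hU0⟩ := primes4
  refine ⟨1 / 384, by norm_num, max U0 3, fun p U _ hU hp h => ?_⟩
  have hU' : U0 ≤ U := (le_max_left _ _).trans hU
  have hU3 : 3 ≤ U := (le_max_right _ _).trans hU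
  have hUr : (3 : ℝ) ≤ U := by exact_mod_cast hU3
  have hpr : (5 : ℝ) ≤ p := by exact_mod_cast hp
  have hlogU : 0 < Real.log U := Real.log_pos (by linarith)
  have hlogp : 0 < Real.log p := Real.log_pos (by linarith)
  obtain ⟨s, hsdef⟩ : ∃ s : Finset ℕ, s = (Finset.Ioc U (4 * U)).filter Nat.Prime := ⟨_, rfl⟩
  have hs : ∀ l ∈ s, l.Prime ∧ U < l ∧ l ≤ 4 * U := by
    intro l hl
    rw [hsdef, Finset.mem_filter, Finset.mem_Ioc] at hl
    exact ⟨hl.2, hl.1.1, hl.1.2⟩
  have hn : (U : ℝ) / Real.log U ≤ s.card := by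
    rw [hsdef]
    exact hU0 U hU'
  obtain ⟨sA, hA⟩ : ∃ sA : Finset ℕ, sA =
    s.filter fun l => (p : ℝ) / (24 * U) ≤ Nat.card (Sq p l 1) := ⟨_, rfl⟩
  obtain ⟨sB, hB⟩ : ∃ sB : Finset ℕ, sB =
    s.filter fun l => (p : ℝ) / (96 * U ^ 2) ≤ Nat.card (Sq p l 2) := ⟨_, rfl⟩
  have hAB : s ⊆ sA ∪ sB := by
    intro l hl
    rw [Finset.mem_union, hA, hB, Finset.mem_filter, Finset.mem_filter]
    obtain ⟨h1, h2, h3⟩ := hs l hl
    have h4 := h l h1 h2 h3
    have hl4 : (l : ℝ) ≤ 4 * U := by exact_mod_cast h3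
    have hl0 : (0 : ℝ) ≤ l := Nat.cast_nonneg l
    by_contra hcon
    push Not at hcon
    have h5 := hcon.1 hl
    have h6 := hcon.2 hl
    rw [lt_div_iff₀ (by positivity)] at h5 h6
    have ha : (0 : ℝ) ≤ Nat.card (Sq p l 1) := Nat.cast_nonneg _
    have hb : (0 : ℝ) ≤ Nat.card (Sq p l 2) := Nat.cast_nonneg _
    have h7 : (l : ℝ) * Nat.card (Sq p l 1) ≤ 4 * U * Nat.card (Sq p l 1) :=
      mul_le_mul_of_nonneg_right hl4 ha
    have h8 : (l : ℝ) ^ 2 * Nat.card (Sq p l 2) ≤ (4 * U) ^ 2 * Nat.card (Sq p l 2) :=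
      mul_le_mul_of_nonneg_right (pow_le_pow_left₀ hl0 hl4 2) hb
    nlinarith
  have hcard : s.card ≤ sA.card + sB.card := (Finset.card_le_card hAB).trans (Finset.card_union_le _ _)
  have hcard' : (s.card : ℝ) ≤ sA.card + sB.card := by exact_mod_cast hcard
  have hUlog : (U : ℝ) ≤ s.card * Real.log U := by
    rw [div_le_iff₀ hlogU] at hn
    exact hn
  rcases le_total ((s.card : ℝ) / 2) sA.card with h1 | h1
  · left
    have h2 := D4_count (k := 1) (B := (p : ℝ) / (24 * U)) (by omega) hp le_rfl sA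
      (fun l hl => hs l (by rw [hA, Finset.mem_filter] at hl; exact hl.1))
      (fun l hl => by rw [hA, Finset.mem_filter] at hl; exact hl.2)
    rw [div_le_iff₀ hlogp]
    have h3 : (U : ℝ) / 2 * (p / (24 * U)) ≤ sA.card * (p / (24 * U)) * Real.log U := by
      have h4 : (U : ℝ) / 2 ≤ sA.card * Real.log U := by nlinarith
      have h5 : (0 : ℝ) ≤ p / (24 * U) := by positivity
      calc (U : ℝ) / 2 * (p / (24 * U)) ≤ (sA.card * Real.log U) * (p / (24 * U)) :=
            mul_le_mul_of_nonneg_right h4 h5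
        _ = _ := by ring
    have h4 : (U : ℝ) / 2 * (p / (24 * U)) = p / 48 := by
      field_simp
      norm_num
    rw [h4] at h3
    nlinarith
  · right
    have h1' : (s.card : ℝ) / 2 ≤ sB.card := by linarith
    have h2 := D4_count (k := 2) (B := (p : ℝ) / (96 * U ^ 2)) (by omega) hp (by norm_num) sB
      (fun l hl => hs l (by rw [hB, Finset.mem_filter] at hl; exact hl.1))
      (fun l hl => by rw [hB, Finset.mem_filter] at hl; exact hl.2)
    rw [div_le_iff₀ (by positivity)]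
    have h3 : (U : ℝ) / 2 * (p / (96 * U ^ 2)) ≤ sB.card * (p / (96 * U ^ 2)) * Real.log U := by
      have h4 : (U : ℝ) / 2 ≤ sB.card * Real.log U := by nlinarith
      have h5 : (0 : ℝ) ≤ p / (96 * U ^ 2) := by positivity
      calc (U : ℝ) / 2 * (p / (96 * U ^ 2)) ≤ (sB.card * Real.log U) * (p / (96 * U ^ 2)) :=
            mul_le_mul_of_nonneg_right h4 h5
        _ = _ := by ring
    have h4 : (U : ℝ) / 2 * (p / (96 * U ^ 2)) * U = p / 192 := by
      field_simp
      norm_num
    have h5 : (p : ℝ) / 192 ≤ Nat.card (SU p U 2) * (2 * Real.log p) * U := by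
      rw [← h4]
      exact mul_le_mul_of_nonneg_right (h3.trans h2) (by linarith)
    nlinarith

end BIE
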