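import Pool.Agent.Lib.MP_10e784_agX.Defs

/-!
# LEAF PA: the curve `y² + x y = x³ - q`

PROOF.  `EQ_eqn`: `WeierstrassCurve.Affine.equation_iff` and `ring`.
`EQ_nons`: `nonsingular_iff'`; a singular point has `2 y + x = 0` and `3 x² = y`; so `x (6 x + 1) = 0`; `x = 0` gives `y = 0`, `q = 0`; `x = - 1 / 6`, `y = 1 / 12` gives `q = x³ - x y - y² = 1 / 432` (`6 ≠ 0` gives `2, 3, 12, 432 ≠ 0`).  Compare `EW_nons` in `MP_10e784_agW/RA.lean`.
`EQ_neg`: `Point.neg_some`, `negY x y = - y - x`.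
`eq_or_neg`: `y² + x y = y'² + x y'`, so `(y - y') (y + y' + x) = 0`.
-/

set_option autoImplicit false

namespace BIE

variable {K : Type*} [Field K] [DecidableEq K]

theorem EQ_eqn (q x y : K) : (EQ K q).toAffine.Equation x y ↔ y ^ 2 + x * y = x ^ 3 - q := by
  rw [WeierstrassCurve.Affine.equation_iff]
  show y ^ 2 + 1 * x * y + 0 * y = x ^ 3 + 0 * x ^ 2 + 0 * x + -q ↔ _
  rw [show y ^ 2 + 1 * x * y + 0 * y = y ^ 2 + x * y by ring,
    show x ^ 3 + 0 * x ^ 2 + 0 * x + -q = x ^ 3 - q by ring]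

theorem EQ_nons (h6 : (6 : K) ≠ 0) {q : K} (hq : q ≠ 0) (hq' : 432 * q ≠ 1) (x y : K) :
    (EQ K q).toAffine.Nonsingular x y ↔ y ^ 2 + x * y = x ^ 3 - q := by
  rw [WeierstrassCurve.Affine.nonsingular_iff', EQ_eqn]
  refine ⟨fun h => h.1, fun h => ⟨h, ?_⟩⟩
  by_contra hcon
  rw [not_or, not_not, not_not] at hcon
  have h1 : 1 * y - (3 * x ^ 2 + 2 * 0 * x + 0) = 0 := hcon.1
  have h2 : 2 * y + 1 * x + 0 = 0 := hcon.2
  have hy : y = 3 * x ^ 2 := by linear_combination h1
  have h3 : x * (6 * x + 1) = 0 := by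
    rw [hy] at h2
    linear_combination h2
  rcases mul_eq_zero.1 h3 with h4 | h4
  · apply hq
    rw [hy, h4] at h
    linear_combination h
  · apply hq'
    rw [hy] at h
    linear_combination 432 * h + (-648 * x ^ 3 - 36 * x ^ 2 + 6 * x - 1) * h4

theorem EQ_neg (q x y : K) (h : (EQ K q).toAffine.Nonsingular x y) :
    ∃ h', -(.some x y h : PQ q) = .some x (-y - x) h' := by
  have e : (EQ K q).toAffine.negY x y = -y - x := by
    show -y - 1 * x - 0 = -y - x
    ring
  have h1 := (WeierstrassCurve.Affine.nonsingular_neg x y).2 h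
  rw [e] at h1
  refine ⟨h1, ?_⟩
  rw [WeierstrassCurve.Affine.Point.neg_some]
  congr 1

/-- points with the same `x`-coordinate -/
theorem eq_or_neg (q x y y' : K) (h : (EQ K q).toAffine.Nonsingular x y) (h' : (EQ K q).toAffine.Nonsingular x y') :
    (.some x y h : PQ q) = .some x y' h' ∨ (.some x y h : PQ q) = -.some x y' h' := by
  have e1 := (EQ_eqn q x y).1 h.1
  have e2 := (EQ_eqn q x y').1 h'.1
  have h3 : (y - y') * (y + y' + x) = 0 := by linear_combination e1 - e2
  rcases mul_eq_zero.1 h3 with h4 | h4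
  · left
    have : y = y' := by linear_combination h4
    subst this
    rfl
  · right
    obtain ⟨h5, h6⟩ := EQ_neg q x y' h'
    rw [h6]
    have : y = -y' - x := by linear_combination h4
    subst this
    rfl

end BIE
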