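import Pool.Agent.Lib.MP_10e784_agX.DDefs
import Pool.Agent.Lib.MP_10e784_agX.PA

/-!
# LEAF D5a: the passage to `y² = x³ + a x + b`

`a = - u⁴ / 48`, `b = u⁶ (1 / 864 - q)`, `u ≠ 0`.
PROOF.  `disc_ab`: `4 a³ + 27 b² = 27 u ^ 12 q (q - 1 / 432)`: with `48, 864, 432` invertible (`p ≥ 5`): `48 a = - u⁴`, `864 b = u⁶ (1 - 864 q)`.
`card_ab`: the bijection `(x, y) ↦ (u² (x + 1 / 12), u³ (y + x / 2))` between the affine points of `y² + x y = x³ - q` (all nonsingular, `EQ_nons`) and the solutions of `y² = x³ + a x + b`; plus the point `0`.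
-/

set_option autoImplicit false

namespace BIE

open MWS

private theorem D5a_ne {p : ℕ} [Fact p.Prime] (hp : 5 ≤ p) :
    (2 : ZMod p) ≠ 0 ∧ (3 : ZMod p) ≠ 0 := by
  have key : ∀ n : ℕ, 0 < n → n < 5 → ((n : ℕ) : ZMod p) ≠ 0 := by
    intro n h0 h5 h
    rw [ZMod.natCast_eq_zero_iff] at h
    have := Nat.le_of_dvd h0 h
    omega
  exact ⟨by exact_mod_cast key 2 (by norm_num) (by norm_num),
    by exact_mod_cast key 3 (by norm_num) (by norm_num)⟩

theorem disc_ab {p : ℕ} [Fact p.Prime] (hp : 5 ≤ p) {q u : ZMod p} (hq : q ≠ 0) (hq' : 432 * q ≠ 1) (hu : u ≠ 0) :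
    4 * (-(u ^ 4) / 48) ^ 3 + 27 * (u ^ 6 * (1 / 864 - q)) ^ 2 ≠ 0 := by
  obtain ⟨h2, h3⟩ := D5a_ne hp
  have h48 : (48 : ZMod p) ≠ 0 := by
    have h : (48 : ZMod p) = 2 ^ 4 * 3 := by norm_num
    rw [h]
    exact mul_ne_zero (pow_ne_zero _ h2) h3
  have h864 : (864 : ZMod p) ≠ 0 := by
    have h : (864 : ZMod p) = 2 ^ 5 * 3 ^ 3 := by norm_num
    rw [h]
    exact mul_ne_zero (pow_ne_zero _ h2) (pow_ne_zero _ h3)
  have h432 : (432 : ZMod p) ≠ 0 := by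
    have h : (432 : ZMod p) = 2 ^ 4 * 3 ^ 3 := by norm_num
    rw [h]
    exact mul_ne_zero (pow_ne_zero _ h2) (pow_ne_zero _ h3)
  have h27 : (27 : ZMod p) ≠ 0 := by
    have h : (27 : ZMod p) = 3 ^ 3 := by norm_num
    rw [h]
    exact pow_ne_zero _ h3
  obtain ⟨c, hc⟩ : ∃ c : ZMod p, c * 1728 = 1 := by
    refine ⟨(1728)⁻¹, inv_mul_cancel₀ ?_⟩
    have h : (1728 : ZMod p) = 2 ^ 6 * 3 ^ 3 := by norm_num
    rw [h]
    exact mul_ne_zero (pow_ne_zero _ h2) (pow_ne_zero _ h3)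
  have e1 : -(u ^ 4) / 48 = -(u ^ 4) * (36 * c) := by
    rw [div_eq_iff h48]
    linear_combination (u ^ 4) * hc
  have e2 : (1 : ZMod p) / 864 = 2 * c := by
    rw [div_eq_iff h864]
    linear_combination -hc
  have e3 : 4 * (-(u ^ 4) / 48) ^ 3 + 27 * (u ^ 6 * (1 / 864 - q)) ^ 2
      = 27 * u ^ 12 * q * (q - 4 * c) := by
    rw [e1, e2]
    linear_combination (-108 * u ^ 12 * c ^ 2) * hc
  rw [e3]
  refine mul_ne_zero (mul_ne_zero (mul_ne_zero h27 (pow_ne_zero _ hu)) hq) ?_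
  intro h
  apply hq'
  linear_combination 432 * h + hc

theorem card_ab {p : ℕ} [Fact p.Prime] (hp : 5 ≤ p) {q u : ZMod p} (hq : q ≠ 0) (hq' : 432 * q ≠ 1) (hu : u ≠ 0) :
    nz (-(u ^ 4) / 48) (u ^ 6 * (1 / 864 - q)) + 1 = Nat.card (PQ q) := by
  obtain ⟨h2, h3⟩ := D5a_ne hp
  have h48 : (48 : ZMod p) ≠ 0 := by
    have h : (48 : ZMod p) = 2 ^ 4 * 3 := by norm_num
    rw [h]
    exact mul_ne_zero (pow_ne_zero _ h2) h3
  have h864 : (864 : ZMod p) ≠ 0 := by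
    have h : (864 : ZMod p) = 2 ^ 5 * 3 ^ 3 := by norm_num
    rw [h]
    exact mul_ne_zero (pow_ne_zero _ h2) (pow_ne_zero _ h3)
  have h6 : (6 : ZMod p) ≠ 0 := by
    have h : (6 : ZMod p) = 2 * 3 := by norm_num
    rw [h]
    exact mul_ne_zero h2 h3
  obtain ⟨c, hc⟩ : ∃ c : ZMod p, c * 1728 = 1 := by
    refine ⟨(1728)⁻¹, inv_mul_cancel₀ ?_⟩
    have h : (1728 : ZMod p) = 2 ^ 6 * 3 ^ 3 := by norm_num
    rw [h]
    exact mul_ne_zero (pow_ne_zero _ h2) (pow_ne_zero _ h3)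
  obtain ⟨v, hv⟩ : ∃ v : ZMod p, v * u = 1 := ⟨u⁻¹, inv_mul_cancel₀ hu⟩
  have e1 : -(u ^ 4) / 48 = -(u ^ 4) * (36 * c) := by
    rw [div_eq_iff h48]
    linear_combination (u ^ 4) * hc
  have e2 : (1 : ZMod p) / 864 = 2 * c := by
    rw [div_eq_iff h864]
    linear_combination -hc
  -- the affine change of variables
  let e : (ZMod p × ZMod p) ≃ (ZMod p × ZMod p) :=
    { toFun := fun z => (u ^ 2 * (z.1 + 144 * c), u ^ 3 * (z.2 + 864 * c * z.1))
      invFun := fun z => (v ^ 2 * z.1 - 144 * c, v ^ 3 * z.2 - 864 * c * (v ^ 2 * z.1 - 144 * c))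
      left_inv := by
        rintro ⟨x, y⟩
        have hv2 : v ^ 2 * u ^ 2 = 1 := by rw [← mul_pow, hv, one_pow]
        have hv3 : v ^ 3 * u ^ 3 = 1 := by rw [← mul_pow, hv, one_pow]
        ext
        · show v ^ 2 * (u ^ 2 * (x + 144 * c)) - 144 * c = x
          linear_combination (x + 144 * c) * hv2
        · show v ^ 3 * (u ^ 3 * (y + 864 * c * x)) - 864 * c * (v ^ 2 * (u ^ 2 * (x + 144 * c)) - 144 * c) = y
          linear_combination (y + 864 * c * x) * hv3 - 864 * c * (x + 144 * c) * hv2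
      right_inv := by
        rintro ⟨x, y⟩
        have hv2 : v ^ 2 * u ^ 2 = 1 := by rw [← mul_pow, hv, one_pow]
        have hv3 : v ^ 3 * u ^ 3 = 1 := by rw [← mul_pow, hv, one_pow]
        ext
        · show u ^ 2 * (v ^ 2 * x - 144 * c + 144 * c) = x
          linear_combination x * hv2
        · show u ^ 3 * (v ^ 3 * y - 864 * c * (v ^ 2 * x - 144 * c) + 864 * c * (v ^ 2 * x - 144 * c)) = y
          linear_combination y * hv3 }
  have he : ∀ z : ZMod p × ZMod p, z.2 ^ 2 + z.1 * z.2 = z.1 ^ 3 - q ↔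
      (e z).2 ^ 2 = (e z).1 ^ 3 + (-(u ^ 4) / 48) * (e z).1 + u ^ 6 * (1 / 864 - q) := by
    rintro ⟨x, y⟩
    rw [e1, e2]
    show y ^ 2 + x * y = x ^ 3 - q ↔ (u ^ 3 * (y + 864 * c * x)) ^ 2 =
      (u ^ 2 * (x + 144 * c)) ^ 3 + (-(u ^ 4) * (36 * c)) * (u ^ 2 * (x + 144 * c)) + u ^ 6 * (2 * c - q)
    have key : (u ^ 3 * (y + 864 * c * x)) ^ 2 -
        ((u ^ 2 * (x + 144 * c)) ^ 3 + (-(u ^ 4) * (36 * c)) * (u ^ 2 * (x + 144 * c)) + u ^ 6 * (2 * c - q))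
        = u ^ 6 * ((y ^ 2 + x * y) - (x ^ 3 - q)) := by
      linear_combination (u ^ 6 * (x * y + 432 * c * x ^ 2 - 36 * c * x - 1728 * c ^ 2 + 2 * c)) * hc
    constructor
    · intro h
      rw [← sub_eq_zero, key, h, sub_self, mul_zero]
    · intro h
      rw [← sub_eq_zero] at h ⊢
      rw [key] at h
      exact (mul_eq_zero.1 h).resolve_left (pow_ne_zero _ hu)
  have hPQ : Nat.card (PQ q) = Nat.card (Option {z : ZMod p × ZMod p // z.2 ^ 2 + z.1 * z.2 = z.1 ^ 3 - q}) := by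
    refine Nat.card_congr
      { toFun := fun P => match P with
          | .zero => none
          | .some x y h => some ⟨(x, y), (EQ_nons h6 hq hq' x y).1 h⟩
        invFun := fun z => match z with
          | none => .zero
          | some w => .some w.1.1 w.1.2 ((EQ_nons h6 hq hq' w.1.1 w.1.2).2 w.2)
        left_inv := ?_
        right_inv := ?_ }
    · intro P
      rcases P with _ | ⟨x, y, h⟩
      · rfl
      · rfl
    · intro z
      rcases z with _ | ⟨⟨x, y⟩, h⟩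
      · rfl
      · rfl
  have hcard : Nat.card {z : ZMod p × ZMod p // z.2 ^ 2 + z.1 * z.2 = z.1 ^ 3 - q} =
      Nat.card {z : ZMod p × ZMod p //
        z.2 ^ 2 = z.1 ^ 3 + (-(u ^ 4) / 48) * z.1 + u ^ 6 * (1 / 864 - q)} :=
    Nat.card_congr (Equiv.subtypeEquiv
      (q := fun z => z.2 ^ 2 = z.1 ^ 3 + (-(u ^ 4) / 48) * z.1 + u ^ 6 * (1 / 864 - q)) e he)
  rw [hPQ, Finite.card_option, hcard]
  rfl

end BIE
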