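import Pool.Agent.Lib.MP_10e784_agX.D3a

/-!
# LEAF D3b: from points to curves

PROOF.  `per_l`: `Tp p l` is in bijection with (or injects into) the pairs `(q, P)`, `q ≠ 0`, `432 q ≠ 1`, `P : PQ q`, `P ≠ 0`, `l • P = 0` (`q = x³ - x y - y²`; the coordinates of `P` determine `z`), so its cardinality is at most `∑_q (tc q - 1)` over these `q`, and `tc q - 1 = 0` if `k = 0`, `≤ l` and `q ∈ Sq p l 1` if `k = 1`, `≤ l²` and `q ∈ Sq p l 2` if `k = 2`.
-/

set_option autoImplicit false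

namespace BIE

private theorem D3b_tr {p l : ℕ} [Fact p.Prime] {q : ZMod p} {z : ZMod p × ZMod p}
    (hz : z.1 ^ 3 - z.1 * z.2 - z.2 ^ 2 = q)
    (h : ∃ h, l • (.some z.1 z.2 h : PQ (z.1 ^ 3 - z.1 * z.2 - z.2 ^ 2)) = 0) :
    ∃ h, l • (.some z.1 z.2 h : PQ q) = 0 := by
  subst hz
  exact h

open Classical in
private theorem D3b_card {α : Type*} [Fintype α] (s : Set α) :
    Nat.card s = (Finset.univ.filter (· ∈ s)).card := by
  rw [Nat.card_eq_fintype_card]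
  exact Fintype.card_subtype _

open Classical in
private theorem D3b_fib (p l : ℕ) [Fact p.Prime] (hp : 5 ≤ p) (hl : l.Prime) (h17 : 17 ≤ l)
    (q : ZMod p) (A : Finset (ZMod p × ZMod p))
    (hA : ∀ z ∈ A, z ∈ Tp p l ∧ z.1 ^ 3 - z.1 * z.2 - z.2 ^ 2 = q) :
    A.card ≤ l * (if q ∈ Sq p l 1 then 1 else 0) + l ^ 2 * (if q ∈ Sq p l 2 then 1 else 0) := by
  by_cases hA0 : A = ∅
  · rw [hA0, Finset.card_empty]
    exact Nat.zero_le _
  obtain ⟨z0, hz0⟩ := Finset.nonempty_iff_ne_empty.2 hA0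
  obtain ⟨⟨h1, h2, h3⟩, h4⟩ := hA z0 hz0
  rw [h4] at h1 h2
  obtain ⟨k, hk, hc, hd⟩ := tc_pow p l hp hl h17 h1 h2
  have hfin : Finite {P : PQ q // l • P = 0} :=
    Nat.finite_of_card_ne_zero (by rw [hc]; exact pow_ne_zero _ hl.ne_zero)
  have hle : A.card ≤ l ^ k := by
    rw [← hc, ← Fintype.card_coe A, ← Nat.card_eq_fintype_card]
    have hx : ∀ z : A, ∃ h, l • (.some z.1.1 z.1.2 h : PQ q) = 0 := fun z =>
      D3b_tr (hA z.1 z.2).2 (hA z.1 z.2).1.2.2
    choose hns hn using hx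
    refine Nat.card_le_card_of_injective
      (fun z : A => (⟨.some z.1.1 z.1.2 (hns z), hn z⟩ : {P : PQ q // l • P = 0})) ?_
    intro z w hzw
    simp only [Subtype.mk.injEq, WeierstrassCurve.Affine.Point.some.injEq] at hzw
    exact Subtype.ext (Prod.ext hzw.1 hzw.2)
  interval_cases k
  · exfalso
    obtain ⟨h, hn⟩ := D3b_tr h4 h3
    have hsub : Subsingleton {P : PQ q // l • P = 0} :=
      (Nat.card_eq_one_iff_unique.1 (by rw [hc]; rfl)).1
    have h5 := congrArg Subtype.val (hsub.elim ⟨_, hn⟩ ⟨0, smul_zero l⟩)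
    exact WeierstrassCurve.Affine.Point.some_ne_zero _ h5
  · have hq : q ∈ Sq p l 1 := ⟨h1, h2, hd⟩
    rw [if_pos hq, mul_one]
    rw [pow_one] at hle
    exact le_trans hle (Nat.le_add_right _ _)
  · have hq : q ∈ Sq p l 2 := ⟨h1, h2, hd⟩
    rw [if_pos hq, mul_one]
    exact le_trans hle (Nat.le_add_left _ _)

theorem per_l (p l : ℕ) [Fact p.Prime] (hp : 5 ≤ p) (hl : l.Prime) (h17 : 17 ≤ l) :
    Nat.card (Tp p l) ≤ l * Nat.card (Sq p l 1) + l ^ 2 * Nat.card (Sq p l 2) := by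
  classical
  rw [D3b_card (Tp p l), D3b_card (Sq p l 1), D3b_card (Sq p l 2)]
  rw [Finset.card_eq_sum_card_fiberwise (f := fun z : ZMod p × ZMod p => z.1 ^ 3 - z.1 * z.2 - z.2 ^ 2)
    (t := Finset.univ) (fun _ _ => Finset.mem_coe.2 (Finset.mem_univ _))]
  rw [Finset.card_filter (fun q => q ∈ Sq p l 1), Finset.card_filter (fun q => q ∈ Sq p l 2),
    Finset.mul_sum, Finset.mul_sum, ← Finset.sum_add_distrib]
  refine Finset.sum_le_sum fun q _ => D3b_fib p l hp hl h17 q _ ?_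
  intro z hz
  rw [Finset.mem_filter, Finset.mem_filter] at hz
  exact ⟨hz.1.2, hz.2⟩

end BIE
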