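import Pool.Agent.Lib.MP_10e784_agX.C4
import Pool.Agent.Lib.MP_10e784_agX.PB2
import Pool.Agent.Lib.MP_10e784_agX.PB3

/-!
# LEAF C5: the branch

PROOF.  `l = 2 m + 1`, `m ≥ 3`; `w` from `exists_w`, `y` from `exists_y`.  `L = FractionRing (PowerSeries K)`, `q = φ (w X ^ l)`.  `q ≠ 0`, `432 q ≠ 1` (constant coefficient of `432 w X ^ l - 1`), `6 ≠ 0` in `L`; so `P = (φ X, φ y)` is a nonsingular point (`EQ_nons`).  By `mults` (`n = m`), `last` and `eta = xi`, `m P` and `(m + 1) P` have the same `x`-coordinate, so (`eq_or_neg`) `(m + 1) P = m P`, impossible as `P ≠ 0`, or `(m + 1) P = - m P`: `(2 m + 1) P = 0`.  By `lad_zero` (`φ X ≠ 0`): `(lad (φ X) (φ (w X ^ l)) l).1.2 = 0`, so by `lad_map` and injectivity of `φ`: `(lad X (w X ^ l) l).1.2 = 0`; `w X ^ l = X³ - X y - y²`; `Zl_sub2`.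
-/

set_option autoImplicit false

namespace BIE

open PowerSeries

private theorem C5_const_ne {K : Type} [Field K] {f : PowerSeries K} (h : constantCoeff f ≠ 0) :
    f ≠ 0 := by
  rintro rfl
  exact h (map_zero _)

theorem branch {K : Type} [Field K] (h6 : (6 : K) ≠ 0) (l : ℕ) (hl : 7 ≤ l) (ho : Odd l) :
    ∃ w y : PowerSeries K, constantCoeff w = 1 ∧ (X : PowerSeries K) ^ 2 ∣ y ∧
      X ^ 3 - X * y - y ^ 2 = w * X ^ l ∧ sub2 (Zl K l) X y = 0 := by
  classical
  obtain ⟨m, rfl⟩ := ho
  have hm : 3 ≤ m := by omega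
  obtain ⟨w, hw, hwe⟩ := exists_w (K := K) hm
  obtain ⟨y, hy2, hy⟩ := exists_y (2 * m + 1) (by omega) w
  have hq : (X : PowerSeries K) ^ 3 - X * y - y ^ 2 = w * X ^ (2 * m + 1) := by
    linear_combination -hy
  refine ⟨w, y, hw, hy2, hq, ?_⟩
  rw [Zl_sub2, hq]
  have hinj : Function.Injective (algebraMap (PowerSeries K) (FractionRing (PowerSeries K))) :=
    IsFractionRing.injective _ _
  have h6L : (6 : FractionRing (PowerSeries K)) ≠ 0 := by
    intro h
    apply h6
    have h1 : algebraMap (PowerSeries K) (FractionRing (PowerSeries K)) (PowerSeries.C (6 : K)) =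
        algebraMap (PowerSeries K) (FractionRing (PowerSeries K)) 0 := by
      rw [map_zero, ← h, map_ofNat, map_ofNat]
    have h2 := hinj h1
    have h3 := congrArg constantCoeff h2
    rwa [constantCoeff_C, map_zero] at h3
  have h2K : (2 : K) ≠ 0 := by
    intro h
    apply h6
    have : (6 : K) = 2 * 3 := by norm_num
    rw [this, h, zero_mul]
  have hX0 : algebraMap (PowerSeries K) (FractionRing (PowerSeries K)) X ≠ 0 := by
    rw [ne_eq, map_eq_zero_iff _ hinj]
    exact X_ne_zero
  have hw0 : w ≠ 0 := C5_const_ne (by rw [hw]; exact one_ne_zero)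
  have hq0 : algebraMap (PowerSeries K) (FractionRing (PowerSeries K)) (w * X ^ (2 * m + 1)) ≠ 0 := by
    rw [ne_eq, map_eq_zero_iff _ hinj]
    exact mul_ne_zero hw0 (pow_ne_zero _ X_ne_zero)
  have hq1 : 432 * algebraMap (PowerSeries K) (FractionRing (PowerSeries K))
      (w * X ^ (2 * m + 1)) ≠ 1 := by
    intro h
    have h1 : algebraMap (PowerSeries K) (FractionRing (PowerSeries K))
        (432 * (w * X ^ (2 * m + 1))) =
        algebraMap (PowerSeries K) (FractionRing (PowerSeries K)) 1 := by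
      rw [map_mul, map_ofNat, map_one]
      exact h
    have h3 := congrArg constantCoeff (hinj h1)
    rw [map_mul, map_mul, map_pow, constantCoeff_X, zero_pow (by omega), mul_zero, mul_zero,
      map_one] at h3
    exact zero_ne_one h3
  have hns : (EQ (FractionRing (PowerSeries K))
      (algebraMap _ _ (w * X ^ (2 * m + 1)))).toAffine.Nonsingular
      (algebraMap _ _ (X : PowerSeries K)) (algebraMap _ _ y) := by
    rw [EQ_nons h6L hq0 hq1]
    rw [← map_pow, ← map_pow, ← map_mul, ← map_add, ← map_sub, hy]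
  obtain ⟨y₁, h₁, e₁⟩ := mults h2K hm w y hns m (by omega) le_rfl
  obtain ⟨y₂, h₂, e₂⟩ := last h2K hm w y hns
  have hsum : (2 * m + 1) • (.some _ _ hns : PQ (algebraMap (PowerSeries K)
      (FractionRing (PowerSeries K)) (w * X ^ (2 * m + 1)))) = 0 := by
    have h₂' := h₂
    rw [hwe] at h₂'
    have e₂' : (m + 1) • (.some _ _ hns : PQ (algebraMap (PowerSeries K)
      (FractionRing (PowerSeries K)) (w * X ^ (2 * m + 1)))) = .some _ _ h₂' := by
      rw [e₂]
      congr 1
      rw [hwe]
    rcases eq_or_neg _ _ _ _ h₂' h₁ with h | h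
    · exfalso
      rw [← e₁, ← e₂', add_smul, one_smul] at h
      have h3 := add_eq_left.1 h
      exact absurd h3 (by simp [WeierstrassCurve.Affine.Point.zero_def])
    · rw [← e₁, ← e₂'] at h
      have h4 : (2 * m + 1) • (.some _ _ hns : PQ (algebraMap (PowerSeries K)
        (FractionRing (PowerSeries K)) (w * X ^ (2 * m + 1)))) =
        (m + 1) • (.some _ _ hns) + m • (.some _ _ hns) := by
        rw [← add_smul]
        congr 1
        omega
      rw [h4, h, neg_add_cancel]
  have hz := (lad_zero h6L hq0 hq1 hX0 hns (2 * m + 1)).1 hsum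
  rw [lad_map] at hz
  exact (map_eq_zero_iff _ hinj).1 hz

end BIE
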