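import Pool.Agent.Lib.MP_10e784_agX.Defs

/-!
# The branch: definitions
-/

set_option autoImplicit false

namespace BIE

open PowerSeries

variable (K : Type) [Field K]

/-- the power series `ξ_n`: the multiples of the point with `x = s` on the curve with `q = w s ^ l` have
`x`-coordinate `x_n = s ^ n ξ_n` -/
noncomputable def xi (l : ℕ) (w : PowerSeries K) : ℕ → PowerSeries K
  | 0 => 1
  | 1 => 1
  | 2 => (1 + w * X ^ (l - 4) * (1 + 8 * X)) * (1 + 4 * X - 4 * w * X ^ (l - 2))⁻¹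
  | n + 3 => (xi l w (n + 2) ^ 2 + w * X ^ (l - 2 * (n + 2) - 2) * (1 + 4 * X ^ (n + 2) * xi l w (n + 2) + 4 * X)) *
      ((1 - X ^ (n + 1) * xi l w (n + 2)) ^ 2 * xi l w (n + 1))⁻¹

/-- `x_(m + 1) = s ^ m η`, `m = (l - 1) / 2` -/
noncomputable def eta (m : ℕ) (w : PowerSeries K) : PowerSeries K :=
  (X * xi K (2 * m + 1) w m ^ 2 + w * (1 + 4 * X ^ m * xi K (2 * m + 1) w m + 4 * X)) *
    ((1 - X ^ (m - 1) * xi K (2 * m + 1) w m) ^ 2 * xi K (2 * m + 1) w (m - 1))⁻¹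

end BIE
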