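import Pool.Agent.Lib.MP_10e784_agX.DDefs
import Pool.Agent.Lib.MP_10e784_agX.PB2
import Pool.Agent.Lib.MP_10e784_agX.PB3

/-!
# LEAF D1: a point of order two

PROOF.  `two_tors`: `E = AlgebraicClosure (ZMod p)`, `q ≠ 0`: a root `x` of `4 X³ + X² - 4 q` in `E` is not `0`; `y = - x / 2`; `y² + x y = - x² / 4 = x³ - q`; `T = (x, y)` is nonsingular (`EQ_nons`), `2 T = 0` (`dbl_zero`), so `l T = T ≠ 0` for odd `l`, so `(lad x q l).1.2 ≠ 0` (`lad_zero`).
`lad_ne`: `g = (lad X (C q) l).1.2 : (ZMod p)[X]` has the value `(lad x q l).1.2 ≠ 0` at the `x` of `two_tors` (`lad_map` with `aeval x`; also for `eval x`, `x : ZMod p`).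
-/

set_option autoImplicit false

namespace BIE

open Polynomial

variable {p : ℕ} [Fact p.Prime]

theorem six_ne (hp : 5 ≤ p) : (6 : ZMod p) ≠ 0 := by
  intro h
  have h1 : ((6 : ℕ) : ZMod p) = 0 := by exact_mod_cast h
  rw [ZMod.natCast_eq_zero_iff] at h1
  have h2 : p ∣ 2 * 3 := h1
  rcases (Nat.Prime.dvd_mul Fact.out).1 h2 with h3 | h3
  · have := Nat.le_of_dvd (by norm_num) h3
    omega
  · have := Nat.le_of_dvd (by norm_num) h3
    omega

theorem two_tors (hp : 5 ≤ p) {q : ZMod p} (hq : q ≠ 0) (hq' : 432 * q ≠ 1) (l : ℕ) (ho : Odd l) :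
    ∃ x y : AlgebraicClosure (ZMod p), x ≠ 0 ∧ y ^ 2 + x * y = x ^ 3 - algebraMap (ZMod p) _ q ∧
      (lad x (algebraMap (ZMod p) _ q) l).1.2 ≠ 0 := by
  classical
  obtain ⟨q', hq1⟩ : ∃ q', q' = algebraMap (ZMod p) (AlgebraicClosure (ZMod p)) q := ⟨_, rfl⟩
  rw [← hq1]
  have h6 : (6 : AlgebraicClosure (ZMod p)) ≠ 0 := by
    have h1 := (_root_.map_ne_zero (algebraMap (ZMod p) (AlgebraicClosure (ZMod p)))).2 (six_ne hp)
    rwa [map_ofNat] at h1
  have h2 : (2 : AlgebraicClosure (ZMod p)) ≠ 0 := by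
    intro h
    apply h6
    have : (6 : AlgebraicClosure (ZMod p)) = 2 * 3 := by norm_num
    rw [this, h, zero_mul]
  have hq0 : q' ≠ 0 := by
    rw [hq1]
    exact (_root_.map_ne_zero _).2 hq
  have hq432 : 432 * q' ≠ 1 := by
    intro h
    apply hq'
    apply (algebraMap (ZMod p) (AlgebraicClosure (ZMod p))).injective
    rw [map_mul, map_one, map_ofNat, ← hq1, h]
  obtain ⟨P, hP⟩ : ∃ P : (AlgebraicClosure (ZMod p))[X],
    P = C 4 * X ^ 3 + C 1 * X ^ 2 + C 0 * X + C (-(4 * q')) := ⟨_, rfl⟩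
  have h4 : (4 : AlgebraicClosure (ZMod p)) ≠ 0 := by
    have : (4 : AlgebraicClosure (ZMod p)) = 2 * 2 := by norm_num
    rw [this]
    exact mul_ne_zero h2 h2
  have hdeg : P.degree ≠ 0 := by
    rw [hP, degree_cubic h4]
    norm_num
  obtain ⟨x, hx⟩ := IsAlgClosed.exists_root P hdeg
  rw [IsRoot.def, hP] at hx
  simp only [eval_add, eval_mul, eval_C, eval_pow, eval_X, zero_mul, add_zero, one_mul] at hx
  have hx0 : x ≠ 0 := by
    rintro rfl
    have h1 : 4 * q' = 0 := by linear_combination -hx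
    rcases mul_eq_zero.1 h1 with h | h
    · exact h4 h
    · exact hq0 h
  have he : (-(x / 2)) ^ 2 + x * -(x / 2) = x ^ 3 - q' := by
    have h1 : 4 * ((-(x / 2)) ^ 2 + x * -(x / 2)) = 4 * (x ^ 3 - q') := by
      field_simp
      linear_combination -hx
    exact mul_left_cancel₀ h4 h1
  refine ⟨x, -(x / 2), hx0, he, ?_⟩
  have hns := (EQ_nons h6 hq0 hq432 x (-(x / 2))).2 he
  intro h
  have h5 := (lad_zero h6 hq0 hq432 hx0 hns l).2 h
  have h7 := dbl_zero q' x (-(x / 2)) hns (by linear_combination hx)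
  obtain ⟨m, rfl⟩ := ho
  rw [add_smul, one_smul, mul_comm, mul_smul, h7, smul_zero, zero_add] at h5
  exact WeierstrassCurve.Affine.Point.some_ne_zero _ h5

theorem lad_ne (hp : 5 ≤ p) {q : ZMod p} (hq : q ≠ 0) (hq' : 432 * q ≠ 1) (l : ℕ) (ho : Odd l) :
    (lad (X : (ZMod p)[X]) (C q) l).1.2 ≠ 0 := by
  obtain ⟨x, y, -, -, h⟩ := two_tors hp hq hq' l ho
  intro h1
  apply h
  have h2 := lad_map (aeval x : (ZMod p)[X] →ₐ[ZMod p] AlgebraicClosure (ZMod p)).toRingHom X (C q) l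
  have h3 := congrArg (fun a => a.1.2) h2
  beta_reduce at h3
  rw [h1, map_zero] at h3
  have e1 : (aeval x : (ZMod p)[X] →ₐ[ZMod p] AlgebraicClosure (ZMod p)).toRingHom X = x := aeval_X x
  have e2 : (aeval x : (ZMod p)[X] →ₐ[ZMod p] AlgebraicClosure (ZMod p)).toRingHom (C q) =
    algebraMap (ZMod p) _ q := aeval_C x q
  rw [e1, e2] at h3
  exact h3

end BIE
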