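import Pool.Agent.Lib.MP_10e784_agX.D1

/-!
# LEAF D1b: the polynomial is not zero

PROOF.  `Zl_ne`: choose `q` in `ZMod p` with `q ≠ 0`, `432 q ≠ 1` (`p ≥ 5`), `two_tors`, and the value of `Zl` at `(x, y)` in `E` (`lad_map` for the homomorphism `(ZMod p)[X][X] → E`, `C X ↦ x`, `X ↦ y`, for which `qq ↦ x³ - x y - y² = q`).
-/

set_option autoImplicit false

namespace BIE

open Polynomial

variable {p : ℕ} [Fact p.Prime]

private theorem D1b_two_ne (hp : 5 ≤ p) : (2 : ZMod p) ≠ 0 := by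
  intro h
  have h1 : ((2 : ℕ) : ZMod p) = 0 := by exact_mod_cast h
  rw [ZMod.natCast_eq_zero_iff] at h1
  have h2 := Nat.le_of_dvd (by norm_num) h1
  omega

private theorem D1b_exists_q (hp : 5 ≤ p) : ∃ q : ZMod p, q ≠ 0 ∧ 432 * q ≠ 1 := by
  by_cases h : (432 : ZMod p) = 1
  · refine ⟨2, D1b_two_ne hp, ?_⟩
    rw [h]
    intro h2
    have h3 : (1 : ZMod p) = 0 := by linear_combination h2
    exact one_ne_zero h3
  · refine ⟨1, one_ne_zero, ?_⟩
    rwa [mul_one]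

theorem Zl_ne (hp : 5 ≤ p) (l : ℕ) (ho : Odd l) : Zl (ZMod p) l ≠ 0 := by
  obtain ⟨q, hq, hq'⟩ := D1b_exists_q (p := p) hp
  obtain ⟨x, y, _, hxy, hne⟩ := two_tors hp hq hq' l ho
  obtain ⟨φ, hφ⟩ : ∃ φ : (ZMod p)[X][X] →+* AlgebraicClosure (ZMod p),
      φ = eval₂RingHom (eval₂RingHom (algebraMap (ZMod p) (AlgebraicClosure (ZMod p))) x) y :=
    ⟨_, rfl⟩
  have h1 : φ (C X) = x := by
    rw [hφ, coe_eval₂RingHom, eval₂_C, coe_eval₂RingHom, eval₂_X]
  have h2 : φ X = y := by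
    rw [hφ, coe_eval₂RingHom, eval₂_X]
  have h3 : φ (qq (ZMod p)) = algebraMap (ZMod p) (AlgebraicClosure (ZMod p)) q := by
    unfold qq
    rw [map_sub, map_sub, map_mul, map_pow φ X 2, C_pow, map_pow, h1, h2]
    linear_combination -hxy
  intro h0
  apply hne
  have h4 := lad_map φ (C X) (qq (ZMod p)) l
  rw [h1, h3] at h4
  rw [h4]
  change φ (Zl (ZMod p) l) = 0
  rw [h0, map_zero]

end BIE
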