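import Pool.Agent.Lib.MP_10e784_agX.D1

/-!
# LEAF D1c: the number of points killed by `l`

PROOF.  `tors_bd`: a point with `l P = 0` is `0`, or has `x = 0` (at most two: `y² = - q`), or `x ≠ 0` is a root of `g` (`lad_zero`), which is not `0` and of degree `≤ 8 l²` (`lad_deg`), and there are at most two `y` for every `x`.
-/

set_option autoImplicit false

namespace BIE

open Polynomial

variable {p : ℕ} [Fact p.Prime]

/-- the polynomial of the `y` over a given `x` -/
private noncomputable def D1c_Y (q x : ZMod p) : (ZMod p)[X] := X ^ 2 + C x * X + C (q - x ^ 3)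

private theorem D1c_Y_deg (q x : ZMod p) : (D1c_Y q x).natDegree = 2 := by
  unfold D1c_Y
  compute_degree!

private theorem D1c_Y_ne (q x : ZMod p) : D1c_Y q x ≠ 0 := by
  intro h
  have h1 := D1c_Y_deg q x
  rw [h, natDegree_zero] at h1
  omega

/-- the affine points of the curve with `x` in `S` -/
private noncomputable def D1c_T (q : ZMod p) (S : Finset (ZMod p)) : Finset (ZMod p × ZMod p) :=
  S.biUnion fun x => ((D1c_Y q x).roots.toFinset).image fun y => (x, y)

private theorem D1c_T_card (q : ZMod p) (S : Finset (ZMod p)) : (D1c_T q S).card ≤ S.card * 2 := by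
  unfold D1c_T
  refine Finset.card_biUnion_le_card_mul S _ 2 fun x _ => ?_
  refine Finset.card_image_le.trans ?_
  refine (Multiset.toFinset_card_le _).trans ?_
  refine (card_roots' _).trans ?_
  rw [D1c_Y_deg]

private theorem D1c_T_mem (q : ZMod p) (S : Finset (ZMod p)) {x y : ZMod p} (hx : x ∈ S)
    (h : (EQ (ZMod p) q).toAffine.Nonsingular x y) : (x, y) ∈ D1c_T q S := by
  unfold D1c_T
  rw [Finset.mem_biUnion]
  refine ⟨x, hx, Finset.mem_image.2 ⟨y, ?_, rfl⟩⟩
  rw [Multiset.mem_toFinset, mem_roots (D1c_Y_ne q x), IsRoot.def]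
  unfold D1c_Y
  have h1 := (WeierstrassCurve.Affine.equation_iff _ _).1 h.1
  simp only [EQ, WeierstrassCurve.toAffine] at h1
  simp only [eval_add, eval_pow, eval_X, eval_mul, eval_C]
  linear_combination h1

private theorem D1c_root (hp : 5 ≤ p) {q : ZMod p} (hq : q ≠ 0) (hq' : 432 * q ≠ 1) (l : ℕ)
    (ho : Odd l) {x y : ZMod p} (h : (EQ (ZMod p) q).toAffine.Nonsingular x y)
    (hl : l • (.some x y h : PQ q) = 0) :
    x ∈ insert 0 ((lad (X : (ZMod p)[X]) (C q) l).1.2.roots.toFinset) := by
  by_cases h0 : x = 0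
  · rw [h0]
    exact Finset.mem_insert_self _ _
  · refine Finset.mem_insert_of_mem ?_
    have h1 := (lad_zero (six_ne hp) hq hq' h0 h l).1 hl
    rw [Multiset.mem_toFinset, mem_roots (lad_ne hp hq hq' l ho), IsRoot.def]
    have h2 := lad_map (evalRingHom x) (X : (ZMod p)[X]) (C q) l
    rw [coe_evalRingHom, eval_X, eval_C] at h2
    rw [h2] at h1
    exact h1

theorem tors_bd (hp : 5 ≤ p) {q : ZMod p} (hq : q ≠ 0) (hq' : 432 * q ≠ 1) (l : ℕ) (hl : 1 ≤ l) (ho : Odd l) :
    Nat.card {P : PQ q // l • P = 0} ≤ 16 * l ^ 2 + 3 := by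
  obtain ⟨S, hS⟩ : ∃ S : Finset (ZMod p),
      S = insert 0 ((lad (X : (ZMod p)[X]) (C q) l).1.2.roots.toFinset) := ⟨_, rfl⟩
  have hScard : S.card ≤ 8 * l ^ 2 + 1 := by
    rw [hS]
    refine (Finset.card_insert_le _ _).trans ?_
    have h1 := Multiset.toFinset_card_le (lad (X : (ZMod p)[X]) (C q) l).1.2.roots
    have h2 := card_roots' (lad (X : (ZMod p)[X]) (C q) l).1.2
    have h3 := lad_deg q l hl
    omega
  have hmem : ∀ P : {P : PQ q // l • P = 0},
      (match P.1 with
        | .zero => none
        | .some x y _ => some (x, y) : Option (ZMod p × ZMod p)) ∈ Finset.insertNone (D1c_T q S) := by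
    rintro ⟨P, hP⟩
    cases P with
    | zero => exact Finset.none_mem_insertNone
    | some x y h =>
      refine Finset.some_mem_insertNone.2 ?_
      refine D1c_T_mem q S ?_ h
      rw [hS]
      exact D1c_root hp hq hq' l ho h hP
  have hinj : Function.Injective
      (fun P : {P : PQ q // l • P = 0} => (⟨_, hmem P⟩ : {z // z ∈ Finset.insertNone (D1c_T q S)})) := by
    rintro ⟨P, hP⟩ ⟨Q, hQ⟩ h
    have h1 := congrArg Subtype.val h
    cases P with
    | zero =>
      cases Q with
      | zero => rfl
      | some x y h => exact absurd h1 (by simp)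
    | some x y h =>
      cases Q with
      | zero => exact absurd h1 (by simp)
      | some x' y' h' =>
        have h2 : (x, y) = (x', y') := Option.some.inj h1
        obtain ⟨rfl, rfl⟩ := Prod.mk.inj h2
        rfl
  have h1 := Nat.card_le_card_of_injective _ hinj
  have h2 : Nat.card {z // z ∈ Finset.insertNone (D1c_T q S)} = (D1c_T q S).card + 1 := by
    rw [Nat.card_eq_fintype_card, Fintype.card_coe, Finset.card_insertNone]
  have h3 := D1c_T_card q S
  rw [h2] at h1
  omega

end BIE
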