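import Pool.Agent.Lib.MP_10e784_agX.D1b
import Pool.Agent.Lib.MP_10e784_agX.C5

/-!
# LEAF D2: many points of order `l`

PROOF.  `FactW` gives `C0`, `c0`.  `n = 8 l²`, `F = Zl (ZMod p) l`: `Zl_ne`, `TD_Zl`, `branch` (`six_ne`) with `w`, `y`: `sub2 F X y = 0`, `X² ∣ y`; if `K0` is large `C0 n ^ c0 ≤ l ^ K0 ≤ p` and `5 ≤ p` (`C0 ≤ 7 ^ C0 ≤ l ^ C0`, `8 l² ≤ l⁴`).  So `Z` with at least `p / 2` elements.  Remove from `Z` the points with `x = 0` (`G = C X`, total degree `1`, `sub2 G = X ≠ 0`), `x³ - x y - y² = 0` (`G = qq`, total degree `3`, `sub2 G = w X ^ l ≠ 0`), `432 (x³ - x y - y²) = 1` (`G = 432 qq - 1`, `sub2 G = 432 w X ^ l - 1 ≠ 0`, constant coefficient `- 1`): at most `3 n (n + 3)² ≤ p / 6` points (`sub2_hom`).  The others are in `Tp p l`: `(x, y)` is nonsingular (`EQ_nons`, `q = x³ - x y - y²`), `Zl` vanishes (`Zl_eval`), `lad_zero`.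
-/

set_option autoImplicit false

namespace BIE

open Polynomial HNQ

private theorem D2_card {α : Type} (Z : Finset α) (P : α → Prop) [DecidablePred P] :
    Nat.card {z : Z // P z.1} = (Z.filter P).card := by
  have e : {z : Z // P z.1} ≃ (Z.filter P : Finset α) :=
    { toFun := fun z => ⟨z.1.1, Finset.mem_filter.2 ⟨z.1.2, z.2⟩⟩
      invFun := fun w => ⟨⟨w.1, (Finset.mem_filter.1 w.2).1⟩, (Finset.mem_filter.1 w.2).2⟩
      left_inv := fun z => rfl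
      right_inv := fun w => rfl }
  rw [Nat.card_congr e, Nat.card_eq_fintype_card, Fintype.card_coe]

private theorem D2_TDq {K : Type} [Field K] : TD 3 (qq K) := by
  have h1 : TD 3 (C (X ^ 3) : K[X][X]) := TD_C _ (by rw [natDegree_X_pow])
  have h2 : TD 3 (C X * X : K[X][X]) := by
    have h3 := (TD_C (X : K[X]) (n := 1) (by rw [natDegree_X])).mul (TD_X_pow (K := K) 1)
    rw [pow_one] at h3
    exact h3.mono (by norm_num)
  have h4 : TD 3 ((X : K[X][X]) ^ 2) := (TD_X_pow (K := K) 2).mono (by norm_num)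
  exact (h1.sub h2).sub h4

theorem many (hW : FactW) : ∃ K0 : ℕ, ∀ (p l : ℕ) [Fact p.Prime], 7 ≤ l → Odd l → l ^ K0 ≤ p →
    (p : ℝ) / 3 ≤ Nat.card (Tp p l) := by
  classical
  obtain ⟨C0, c0, hW⟩ := hW
  refine ⟨C0 + 4 * c0 + 14, fun p l _ hl ho hp => ?_⟩
  -- sizes
  have hn4 : (8 * l ^ 2) ^ c0 ≤ l ^ (4 * c0) := by
    rw [pow_mul]
    apply Nat.pow_le_pow_left
    nlinarith [Nat.pow_le_pow_left hl 2]
  have hl1 : 1 < l := by omega
  have hC0 : C0 ≤ l ^ C0 := (Nat.lt_pow_self hl1).le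
  have hl2 : 49 ≤ l ^ 2 := by nlinarith
  have hlpos : 0 < l := by omega
  have hp1 : C0 * (8 * l ^ 2) ^ c0 ≤ p := by
    calc C0 * (8 * l ^ 2) ^ c0 ≤ l ^ C0 * l ^ (4 * c0) := Nat.mul_le_mul hC0 hn4
      _ = l ^ (C0 + 4 * c0) := by rw [← pow_add]
      _ ≤ l ^ (C0 + 4 * c0 + 14) := Nat.pow_le_pow_right hlpos (by omega)
      _ ≤ p := hp
  have hp2 : 18 * (8 * l ^ 2 * (8 * l ^ 2 + 3) ^ 2) ≤ p := by
    have h8 : 8 * l ^ 2 ≤ l ^ 4 := by nlinarith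
    have h9 : 8 * l ^ 2 + 3 ≤ l ^ 4 := by nlinarith
    calc 18 * (8 * l ^ 2 * (8 * l ^ 2 + 3) ^ 2) ≤ l ^ 2 * (l ^ 4 * (l ^ 4) ^ 2) :=
          Nat.mul_le_mul (by omega) (Nat.mul_le_mul h8 (Nat.pow_le_pow_left h9 2))
      _ = l ^ 14 := by ring
      _ ≤ l ^ (C0 + 4 * c0 + 14) := Nat.pow_le_pow_right hlpos (by omega)
      _ ≤ p := hp
  have hp5 : 5 ≤ p := by
    calc 5 ≤ l ^ 2 := by omega
      _ ≤ l ^ (C0 + 4 * c0 + 14) := Nat.pow_le_pow_right hlpos (by omega)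
      _ ≤ p := hp
  have h6 : (6 : ZMod p) ≠ 0 := six_ne hp5
  obtain ⟨w, y, hw, hy, hyw, hZ0⟩ := branch h6 l hl ho
  have hw0 : w ≠ 0 := by
    rintro rfl
    rw [map_zero] at hw
    exact zero_ne_one hw
  obtain ⟨Z, hZc, hZF, hZG⟩ := hW p (8 * l ^ 2) (by nlinarith) hp1 (Zl (ZMod p) l) y
    (Zl_ne hp5 l ho) (TD_Zl l (by omega)) hy hZ0
  obtain ⟨φ, hφ, hφx, hφy, hφc⟩ := sub2_hom (PowerSeries.X : PowerSeries (ZMod p)) y
  have hφq : φ (qq (ZMod p)) = w * PowerSeries.X ^ l := by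
    have h1 : (C (X ^ 3) : (ZMod p)[X][X]) = (C X) ^ 3 := map_pow C X 3
    rw [qq, h1, map_sub, map_sub, map_pow, map_mul, map_pow, hφx, hφy, hyw]
  -- three curves
  have hG1 := hZG 1 (C X) (TD_C _ (by rw [natDegree_X])) (by
    rw [← hφ, hφx]
    exact PowerSeries.X_ne_zero)
  have hG2 := hZG 3 (qq (ZMod p)) D2_TDq (by
    rw [← hφ, hφq]
    exact mul_ne_zero hw0 (pow_ne_zero _ PowerSeries.X_ne_zero))
  obtain ⟨G3, hG3d⟩ : ∃ G3 : (ZMod p)[X][X], G3 = C (C 432) * qq (ZMod p) - C (C 1) := ⟨_, rfl⟩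
  have hTD3 : TD 3 G3 := by
    rw [hG3d]
    have h1 : TD 0 (C (C 432) : (ZMod p)[X][X]) := TD_C _ (by rw [natDegree_C])
    have h2 := h1.mul (D2_TDq (K := ZMod p))
    rw [zero_add] at h2
    exact h2.sub (TD_C _ (by rw [natDegree_C]; norm_num))
  have hG3 := hZG 3 G3 hTD3 (by
    rw [← hφ, hG3d, map_sub, map_mul, hφq, hφc, hφc]
    intro h
    have h1 := congrArg (PowerSeries.constantCoeff (R := ZMod p)) h
    rw [map_sub, map_mul, map_mul, map_pow, PowerSeries.constantCoeff_X, zero_pow (by omega),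
      mul_zero, mul_zero, PowerSeries.constantCoeff_C, map_zero, zero_sub, neg_eq_zero] at h1
    exact one_ne_zero h1)
  rw [D2_card Z fun z => (C X : (ZMod p)[X][X]).evalEval z.1 z.2 = 0] at hG1
  rw [D2_card Z fun z => (qq (ZMod p)).evalEval z.1 z.2 = 0] at hG2
  rw [D2_card Z fun z => G3.evalEval z.1 z.2 = 0] at hG3
  have hq : ∀ z : ZMod p × ZMod p, (qq (ZMod p)).evalEval z.1 z.2 =
      z.1 ^ 3 - z.1 * z.2 - z.2 ^ 2 := by
    intro z
    rw [qq, evalEval_sub, evalEval_sub, evalEval_C, evalEval_mul, evalEval_C, evalEval_pow,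
      evalEval_X, eval_pow, eval_X]
  -- the good points
  let good : ZMod p × ZMod p → Prop := fun z => z.1 ≠ 0 ∧ z.1 ^ 3 - z.1 * z.2 - z.2 ^ 2 ≠ 0 ∧
    432 * (z.1 ^ 3 - z.1 * z.2 - z.2 ^ 2) ≠ 1
  have hsub : Z ⊆ Z.filter good ∪ ((Z.filter fun z => (C X : (ZMod p)[X][X]).evalEval z.1 z.2 = 0) ∪
      ((Z.filter fun z => (qq (ZMod p)).evalEval z.1 z.2 = 0) ∪
      (Z.filter fun z => G3.evalEval z.1 z.2 = 0))) := by
    intro z hz
    simp only [Finset.mem_union, Finset.mem_filter]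
    by_cases h1 : z.1 = 0
    · right; left
      refine ⟨hz, ?_⟩
      rw [evalEval_C, eval_X, h1]
    by_cases h2 : z.1 ^ 3 - z.1 * z.2 - z.2 ^ 2 = 0
    · right; right; left
      exact ⟨hz, by rw [hq, h2]⟩
    by_cases h3 : 432 * (z.1 ^ 3 - z.1 * z.2 - z.2 ^ 2) = 1
    · right; right; right
      refine ⟨hz, ?_⟩
      rw [hG3d, evalEval_sub, evalEval_mul, evalEval_C, evalEval_C, eval_C, eval_C, hq, h3, sub_self]
    · left
      exact ⟨hz, h1, h2, h3⟩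
  have hcard := Finset.card_le_card hsub
  have hun := hcard.trans ((Finset.card_union_le _ _).trans (add_le_add le_rfl
    ((Finset.card_union_le _ _).trans (add_le_add le_rfl (Finset.card_union_le _ _)))))
  have hgood : (Z.filter good).card ≤ Nat.card (Tp p l) := by
    have h1 : (↑(Z.filter good) : Set (ZMod p × ZMod p)) ⊆ Tp p l := by
      intro z hz
      rw [Finset.mem_coe, Finset.mem_filter] at hz
      obtain ⟨hz, hx, hq0, hq1⟩ := hz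
      have hns : (EQ (ZMod p) (z.1 ^ 3 - z.1 * z.2 - z.2 ^ 2)).toAffine.Nonsingular z.1 z.2 :=
        (EQ_nons h6 hq0 hq1 z.1 z.2).2 (by ring)
      refine ⟨hq0, hq1, hns, ?_⟩
      rw [lad_zero h6 hq0 hq1 hx hns l, ← Zl_eval]
      exact hZF z hz
    have h2 := Set.ncard_le_ncard h1 (Set.toFinite _)
    rw [Set.ncard_coe_finset] at h2
    exact h2
  have hm1 : 8 * l ^ 2 * (8 * l ^ 2 + 1) ^ 2 ≤ 8 * l ^ 2 * (8 * l ^ 2 + 3) ^ 2 :=
    Nat.mul_le_mul_left _ (Nat.pow_le_pow_left (by omega) 2)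
  have hfin : Z.card ≤ Nat.card (Tp p l) + 3 * (8 * l ^ 2 * (8 * l ^ 2 + 3) ^ 2) := by omega
  have hfinR : (Z.card : ℝ) ≤ Nat.card (Tp p l) + 3 * ((8 * l ^ 2 * (8 * l ^ 2 + 3) ^ 2 : ℕ) : ℝ) := by
    exact_mod_cast hfin
  have hp2R : 18 * ((8 * l ^ 2 * (8 * l ^ 2 + 3) ^ 2 : ℕ) : ℝ) ≤ p := by exact_mod_cast hp2
  linarith

end BIE
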