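import Pool.Agent.Lib.MP_10e784_agX.D5a

/-!
# LEAF D5b: counting the pairs `(a, b)`

PROOF.  `fibre`: the map `(u, q) ↦ (a, b)` from `{u ≠ 0} × SU p U k` to the pairs with `Gk p U k` has fibres with at most `4` elements: `a` determines `u⁴`, at most four `u`, and `u`, `b` determine `q`.
-/

set_option autoImplicit false

namespace BIE

open MWS

private theorem D5b_48 (p : ℕ) [Fact p.Prime] (hp : 5 ≤ p) : (48 : ZMod p) ≠ 0 := by
  intro h
  have h1 : ((48 : ℕ) : ZMod p) = 0 := by exact_mod_cast h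
  rw [ZMod.natCast_eq_zero_iff] at h1
  have hP : p.Prime := Fact.out
  have h2 : p ∣ 2 ^ 4 * 3 := h1
  rcases (Nat.Prime.dvd_mul hP).1 h2 with h3 | h3
  · have h4 := Nat.le_of_dvd two_pos (hP.dvd_of_dvd_pow h3)
    omega
  · have h4 := Nat.le_of_dvd three_pos h3
    omega

theorem fibre (p U k : ℕ) [Fact p.Prime] (hp : 5 ≤ p) :
    (p - 1) * Nat.card (SU p U k) ≤ 4 * Nat.card {z : ZMod p × ZMod p // Gk p U k z} := by
  classical
  have h48 := D5b_48 p hp
  let f : ZMod p × ZMod p → ZMod p × ZMod p := fun a =>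
    (-(a.1 ^ 4) / 48, a.1 ^ 6 * (1 / 864 - a.2))
  let S : Finset (ZMod p × ZMod p) :=
    (Finset.univ.filter fun u : ZMod p => u ≠ 0) ×ˢ (Finset.univ.filter fun q : ZMod p => q ∈ SU p U k)
  let T : Finset (ZMod p × ZMod p) := Finset.univ.filter fun z => Gk p U k z
  have hS : S.card = (p - 1) * Nat.card (SU p U k) := by
    have h1 : (Finset.univ.filter fun u : ZMod p => u ≠ 0).card = p - 1 := by
      rw [Finset.filter_ne' Finset.univ (0 : ZMod p), Finset.card_erase_of_mem (Finset.mem_univ _),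
        Finset.card_univ, ZMod.card]
    have h2 : (Finset.univ.filter fun q : ZMod p => q ∈ SU p U k).card = Nat.card (SU p U k) := by
      rw [Nat.card_eq_fintype_card, Fintype.card_subtype]
    rw [Finset.card_product, h1, h2]
  have hT : T.card = Nat.card {z : ZMod p × ZMod p // Gk p U k z} := by
    rw [Nat.card_eq_fintype_card, Fintype.card_subtype]
  rw [← hS, ← hT]
  refine Finset.card_le_mul_card_image_of_maps_to (f := f) ?_ 4 ?_
  · intro a ha
    obtain ⟨h1, h2⟩ := Finset.mem_product.1 ha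
    have hu : a.1 ≠ 0 := (Finset.mem_filter.1 h1).2
    obtain ⟨hq, hq', l, hl, hU, hU', hd⟩ := (Finset.mem_filter.1 h2).2
    refine Finset.mem_filter.2 ⟨Finset.mem_univ _, disc_ab hp hq hq' hu, l, hl, hU, hU', ?_⟩
    show l ^ k ∣ nz (-(a.1 ^ 4) / 48) (a.1 ^ 6 * (1 / 864 - a.2)) + 1
    rw [card_ab hp hq hq' hu]
    exact hd
  · intro b _
    have hle : (S.filter fun a => f a = b).card ≤ (Polynomial.nthRoots 4 (-(48 * b.1))).toFinset.card := by
      refine Finset.card_le_card_of_injOn (fun a => a.1) ?_ ?_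
      · intro a ha
        have ha' := Finset.mem_filter.1 (Finset.mem_coe.1 ha)
        have h1 : -(a.1 ^ 4) / 48 = b.1 := congrArg Prod.fst ha'.2
        refine Finset.mem_coe.2 (Multiset.mem_toFinset.2 ((Polynomial.mem_nthRoots (by norm_num)).2 ?_))
        rw [div_eq_iff h48] at h1
        linear_combination -h1
      · intro a ha c hc hac
        have ha' := Finset.mem_filter.1 (Finset.mem_coe.1 ha)
        have hc' := Finset.mem_filter.1 (Finset.mem_coe.1 hc)
        have hac' : a.1 = c.1 := hac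
        have hu : a.1 ≠ 0 := (Finset.mem_filter.1 (Finset.mem_product.1 ha'.1).1).2
        have h1 : a.1 ^ 6 * (1 / 864 - a.2) = b.2 := congrArg Prod.snd ha'.2
        have h2 : c.1 ^ 6 * (1 / 864 - c.2) = b.2 := congrArg Prod.snd hc'.2
        rw [← hac', ← h1] at h2
        have h3 := mul_left_cancel₀ (pow_ne_zero 6 hu) h2
        exact Prod.ext hac' (sub_right_inj.1 h3).symm
    exact hle.trans ((Multiset.toFinset_card_le _).trans (Polynomial.card_nthRoots 4 _))

end BIE
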