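import Pool.Agent.Lib.MP_10e784_agBS.Defs
import Pool.Agent.Lib.MP_10e784_agQ.QSDefs

/-!
# All bielliptic curves: definitions
-/

set_option autoImplicit false

namespace BIE

open Finset Polynomial MWS

/-- the curve `y² + x y = x³ - q` -/
def EQ (K : Type*) [Field K] (q : K) : WeierstrassCurve K := ⟨1, 0, 0, 0, -q⟩

/-- its points -/
abbrev PQ {K : Type*} [Field K] (q : K) : Type _ := (EQ K q).toAffine.Point

/-- `a` represents the `x`-coordinate of the point -/
def Rep {K : Type*} [Field K] {q : K} (a : K × K) : PQ q → Prop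
  | .zero => a.2 = 0 ∧ a.1 ≠ 0
  | .some x _ _ => a.2 ≠ 0 ∧ a.1 = x * a.2

/-- doubling on `x`-coordinates -/
def dbl {R : Type*} [CommRing R] (q : R) (a : R × R) : R × R :=
  (a.1 ^ 4 + 8 * q * a.1 * a.2 ^ 3 + q * a.2 ^ 4, a.2 * (4 * a.1 ^ 3 + a.1 ^ 2 * a.2 - 4 * q * a.2 ^ 3))

/-- the `x`-coordinate of `A + B` from those of `A`, `B` and `A - B` (which is `x`) -/
def dad {R : Type*} [CommRing R] (x q : R) (a b : R × R) : R × R :=
  (a.1 ^ 2 * b.1 ^ 2 + 4 * q * a.2 * b.2 * (a.1 * b.2 + b.1 * a.2) + q * a.2 ^ 2 * b.2 ^ 2,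
    x * (a.1 * b.2 - b.1 * a.2) ^ 2)

/-- the ladder: the `x`-coordinates of `n P` and `(n + 1) P` -/
def lad {R : Type*} [CommRing R] (x q : R) : ℕ → (R × R) × (R × R)
  | 0 => ((1, 0), (x, 1))
  | n + 1 =>
    if (n + 1) % 2 = 1 then
      (dad x q (lad x q ((n + 1) / 2)).1 (lad x q ((n + 1) / 2)).2, dbl q (lad x q ((n + 1) / 2)).2)
    else (dbl q (lad x q ((n + 1) / 2)).1, dad x q (lad x q ((n + 1) / 2)).1 (lad x q ((n + 1) / 2)).2)
decreasing_by all_goals omega

/-- the value of a polynomial in two variables (`x` inner, `y` outer) at two power series -/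
noncomputable def sub2 {K : Type} [Field K] (F : K[X][X]) (x y : PowerSeries K) : PowerSeries K :=
  (F.map (mapRingHom (PowerSeries.C (R := K)))).evalEval x y

/-- the polynomial `x³ - x y - y²` -/
noncomputable def qq (K : Type) [Field K] : K[X][X] := C (X ^ 3) - C X * X - X ^ 2

/-- the polynomial of degree `O(l²)` whose zeros are the points of order `l` of the curves `y² + x y = x³ - q` -/
noncomputable def Zl (K : Type) [Field K] (l : ℕ) : K[X][X] := (lad (C X) (qq K) l).1.2

end BIE
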