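import Pool.Agent.Lib.MP_10e784_agX.PA3

/-!
# LEAF PB1: the ladder on a curve, doubling

PROOF.  `rep_zero`: cases.
`rep_dbl`: `P = 0`: `a.2 = 0`, `a.1 ≠ 0`, so `dbl q a = (a.1 ^ 4, 0)`.  `P = (x, y)`, `a.1 = x a.2`: `dbl q a = (a.2 ^ 4 N, a.2 ^ 4 D)` with `N = x⁴ + 8 q x + q`, `D = 4 x³ + x² - 4 q`.  If `D ≠ 0`: `dbl_pt`.  If `D = 0`: `2 P = 0` (`dbl_zero`) and `N ≠ 0`: `4 q = 4 x³ + x²` gives `4 N = x² (6 x + 1)²`; `x = 0` gives `q = 0`; `x = - 1 / 6` gives `4 q = 1 / 108`, `432 q = 1`.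
-/

set_option autoImplicit false

namespace BIE

variable {K : Type*} [Field K] [DecidableEq K]

theorem rep_zero {q : K} {a : K × K} {P : PQ q} (h : Rep a P) : P = 0 ↔ a.2 = 0 := by
  rcases P with _ | ⟨x, y, hxy⟩
  · exact ⟨fun _ => h.1, fun _ => rfl⟩
  · constructor
    · intro h0
      exact absurd h0 (WeierstrassCurve.Affine.Point.some_ne_zero hxy)
    · intro h0
      exact absurd h0 h.1

theorem rep_dbl (h6 : (6 : K) ≠ 0) {q : K} (hq : q ≠ 0) (hq' : 432 * q ≠ 1) {a : K × K} {P : PQ q} (h : Rep a P) :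
    Rep (dbl q a) ((2 : ℕ) • P) := by
  rcases P with _ | ⟨x, y, hxy⟩
  · have h0 : (2 : ℕ) • (WeierstrassCurve.Affine.Point.zero : PQ q) = WeierstrassCurve.Affine.Point.zero :=
      smul_zero (2 : ℕ) (A := PQ q)
    rw [h0]
    obtain ⟨h1, h2⟩ := h
    refine ⟨?_, ?_⟩
    · simp [dbl, h1]
    · simp [dbl, h1, h2]
  · obtain ⟨h1, h2⟩ := h
    by_cases hd : 4 * x ^ 3 + x ^ 2 - 4 * q = 0
    · rw [dbl_zero q x y hxy hd]
      have h2' : (2 : K) ≠ 0 := fun h => h6 (by linear_combination 3 * h)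
      have hN : x ^ 4 + 8 * q * x + q ≠ 0 := by
        intro hN
        have h4 : x ^ 2 * (6 * x + 1) ^ 2 = 0 := by
          linear_combination 4 * hN + (8 * x + 1) * hd
        rcases mul_eq_zero.1 h4 with h5 | h5
        · have hx : x = 0 := by simpa using h5
          subst hx
          apply hq
          have : (2 : K) * 2 * q = 0 := by linear_combination - hd
          rcases mul_eq_zero.1 this with h7 | h7
          · exact absurd (mul_self_eq_zero.1 h7) h2'
          · exact h7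
        · have hx : 6 * x + 1 = 0 := by simpa using h5
          apply hq'
          linear_combination (-108) * hd + (72 * x ^ 2 + 6 * x - 1) * hx
      refine ⟨?_, ?_⟩
      · simp only [dbl]
        rw [h2]
        linear_combination a.2 ^ 4 * hd
      · simp only [dbl]
        rw [h2]
        have : (x * a.2) ^ 4 + 8 * q * (x * a.2) * a.2 ^ 3 + q * a.2 ^ 4 = a.2 ^ 4 * (x ^ 4 + 8 * q * x + q) := by ring
        rw [this]
        exact mul_ne_zero (pow_ne_zero 4 h1) hN
    · obtain ⟨x', y', h', he, hx'⟩ := dbl_pt q x y hxy hd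
      rw [he]
      refine ⟨?_, ?_⟩
      · simp only [dbl]
        rw [h2]
        have : a.2 * (4 * (x * a.2) ^ 3 + (x * a.2) ^ 2 * a.2 - 4 * q * a.2 ^ 3) = a.2 ^ 4 * (4 * x ^ 3 + x ^ 2 - 4 * q) := by ring
        rw [this]
        exact mul_ne_zero (pow_ne_zero 4 h1) hd
      · simp only [dbl]
        rw [h2]
        linear_combination (- a.2 ^ 4) * hx'

end BIE
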