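import Pool.Agent.Lib.MP_10e784_agX.PB1
import Pool.Agent.Lib.MP_10e784_agX.PA2

/-!
# LEAF PB1b: the ladder on a curve, differential addition

PROOF.  `rep_dad`, `P = (x, y)`, `x ≠ 0`, `A = B + P`.  Cases.  `B = 0`: `A = P`, `a = (u, 0)`, `b = (x v, v)`: `dad = (u² x² v², x u² v²)`, represents `P = 2 • 0 + P`.  `B = (x_B, y_B)`, `A = 0`: `B = - P`, `x_B = x`, `a = (x u, u)`, `b = (v, 0)`: `dad = (x² u² v², x v² u²)`, and `2 B + P = - P` has `x`-coordinate `x`.  Both affine, `a = (x_B u, u)`, `b = (x_A v, v)`: `dad = (u² v² (x_A² x_B² + 4 q (x_A + x_B) + q), u² v² x (x_B - x_A)²)`, `2 B + P = A + B`, `A - B = P`.  If `x_A ≠ x_B`: `add_sub` for `A`, `B` (its `x₄` is `x` as `A - B = P`).  If `x_A = x_B`: `A = B` is impossible (`P ≠ 0`), so (`eq_or_neg`) `A = - B`, `A + B = 0`, `2 A = P`, so `4 x_A³ + x_A² - 4 q ≠ 0` (`dbl_zero`, `P ≠ 0`) and `x_A⁴ + 8 q x_A + q = x (..) ≠ 0` (`dbl_pt`; `x_A² x_B² + 4 q (x_A + x_B) + q = x_A⁴ + 8 q x_A + q`).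
-/

set_option autoImplicit false

namespace BIE

variable {K : Type*} [Field K] [DecidableEq K]

theorem rep_dad (h6 : (6 : K) ≠ 0) {q : K} (hq : q ≠ 0) (hq' : 432 * q ≠ 1) {x y : K} (h0 : x ≠ 0)
    (h : (EQ K q).toAffine.Nonsingular x y) {a b : K × K} {B : PQ q} (ha : Rep a B)
    (hb : Rep b (B + .some x y h)) : Rep (dad x q a b) ((2 : ℕ) • B + .some x y h) := by
  have hP0 : (.some x y h : PQ q) ≠ 0 := WeierstrassCurve.Affine.Point.some_ne_zero h
  have h2 : ∀ B P : PQ q, (2 : ℕ) • B + P = (B + P) + B := by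
    intro B P
    rw [two_nsmul]
    abel
  rcases B with _ | ⟨xB, yB, hB⟩
  · have e1 : (WeierstrassCurve.Affine.Point.zero : PQ q) = 0 := rfl
    rw [e1, zero_add] at hb
    rw [e1, nsmul_zero, zero_add]
    obtain ⟨ha1, ha2⟩ : a.2 = 0 ∧ a.1 ≠ 0 := ha
    obtain ⟨hb1, hb2⟩ : b.2 ≠ 0 ∧ b.1 = x * b.2 := hb
    show (dad x q a b).2 ≠ 0 ∧ (dad x q a b).1 = x * (dad x q a b).2
    unfold dad
    dsimp only
    rw [ha1, hb2]
    constructor
    · have e : x * (a.1 * b.2 - x * b.2 * 0) ^ 2 = x * (a.1 * b.2) ^ 2 := by ring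
      rw [e]
      exact mul_ne_zero h0 (pow_ne_zero 2 (mul_ne_zero ha2 hb1))
    · ring
  · obtain ⟨ha1, ha2⟩ : a.2 ≠ 0 ∧ a.1 = xB * a.2 := ha
    rw [h2]
    generalize hA : (.some xB yB hB : PQ q) + .some x y h = A at hb
    rcases A with _ | ⟨xA, yA, hA'⟩
    · have e1 : (WeierstrassCurve.Affine.Point.zero : PQ q) = 0 := rfl
      rw [e1] at hA ⊢
      rw [zero_add]
      obtain ⟨hb1, hb2⟩ : b.2 = 0 ∧ b.1 ≠ 0 := hb
      obtain ⟨h', hn⟩ := EQ_neg q x y h
      have h3 : (.some xB yB hB : PQ q) = .some x (-y - x) h' := by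
        rw [← hn]
        exact eq_neg_of_add_eq_zero_left hA
      have hx : xB = x := (WeierstrassCurve.Affine.Point.some.inj h3).1
      show (dad x q a b).2 ≠ 0 ∧ (dad x q a b).1 = xB * (dad x q a b).2
      unfold dad
      dsimp only
      rw [hb1, ha2, hx]
      constructor
      · have e : x * (x * a.2 * 0 - b.1 * a.2) ^ 2 = x * (b.1 * a.2) ^ 2 := by ring
        rw [e]
        exact mul_ne_zero h0 (pow_ne_zero 2 (mul_ne_zero hb2 ha1))
      · ring
    · obtain ⟨hb1, hb2⟩ : b.2 ≠ 0 ∧ b.1 = xA * b.2 := hb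
      have hsub : (.some xA yA hA' : PQ q) - .some xB yB hB = .some x y h := by
        rw [← hA]
        abel
      by_cases hx : xA = xB
      · subst hx
        rcases eq_or_neg q xA yA yB hA' hB with h3 | h3
        · exfalso
          rw [h3, sub_self] at hsub
          exact hP0 hsub.symm
        · have h4 : (.some xA yA hA' : PQ q) + .some xA yB hB = 0 := by
            rw [h3]
            exact neg_add_cancel _
          rw [h4]
          have h5 : (2 : ℕ) • (.some xA yA hA' : PQ q) = .some x y h := by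
            rw [two_nsmul, ← hsub, sub_eq_add_neg]
            congr 1
          have hD : 4 * xA ^ 3 + xA ^ 2 - 4 * q ≠ 0 := by
            intro hD
            rw [dbl_zero q xA yA hA' hD] at h5
            exact hP0 h5.symm
          obtain ⟨x', y', h', h6', h7⟩ := dbl_pt q xA yA hA' hD
          have h8 : x' = x := by
            rw [h5] at h6'
            exact (WeierstrassCurve.Affine.Point.some.inj h6').1.symm
          have hN : xA ^ 4 + 8 * q * xA + q ≠ 0 := by
            rw [← h7, h8]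
            exact mul_ne_zero h0 hD
          show (dad x q a b).2 = 0 ∧ (dad x q a b).1 ≠ 0
          unfold dad
          dsimp only
          rw [ha2, hb2]
          constructor
          · ring
          · have e : (xA * a.2) ^ 2 * (xA * b.2) ^ 2 +
                4 * q * a.2 * b.2 * (xA * a.2 * b.2 + xA * b.2 * a.2) + q * a.2 ^ 2 * b.2 ^ 2 =
                (a.2 * b.2) ^ 2 * (xA ^ 4 + 8 * q * xA + q) := by ring
            rw [e]
            exact mul_ne_zero (pow_ne_zero 2 (mul_ne_zero ha1 hb1)) hN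
      · obtain ⟨x₃, y₃, h₃, x₄, y₄, h₄, e3, e4, e5⟩ := add_sub q xA yA xB yB hA' hB hx
        have h8 : x₄ = x := by
          rw [hsub] at e4
          exact (WeierstrassCurve.Affine.Point.some.inj e4).1.symm
        rw [e3]
        show (dad x q a b).2 ≠ 0 ∧ (dad x q a b).1 = x₃ * (dad x q a b).2
        unfold dad
        dsimp only
        rw [ha2, hb2]
        rw [h8] at e5
        constructor
        · have e : x * (xB * a.2 * b.2 - xA * b.2 * a.2) ^ 2 =
              x * ((a.2 * b.2) ^ 2 * (xA - xB) ^ 2) := by ring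
          rw [e]
          exact mul_ne_zero h0 (mul_ne_zero (pow_ne_zero 2 (mul_ne_zero ha1 hb1))
            (pow_ne_zero 2 (sub_ne_zero.2 hx)))
        · linear_combination (-(a.2 * b.2) ^ 2) * e5

end BIE
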